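import Mathlib

/-!
# Minimal dominating sets: the combinatorial core

Everything is stated relative to a set `W` of vertices to be dominated by subsets of `W`.
`MD G W M` : `M` is a minimal dominating set of the induced subgraph `G[W]`.
`RA G A B` : `A` and `B` are related by one expansion or contraction.
`Cyc G W` : there is a cycle of length 3, 4 or 5 of minimal dominating sets of `G[W]`.
`StarLike G W` : all edges of `G[W]` share one vertex.
The main theorem `main` says that `Cyc G W` holds unless `G[W]` is star-like.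
-/

namespace Pool.Agent.Lib.MP_746574_co
universe u
variable {V : Type u}

def MD (G : SimpleGraph V) (W M : Set V) : Prop :=
  (∀ x ∈ M, x ∈ W) ∧ (∀ w ∈ W, ∃ u ∈ M, u = w ∨ G.Adj w u) ∧
    ∀ m ∈ M, ∃ w ∈ W, ∀ u ∈ M, (u = w ∨ G.Adj w u) → u = m

def EX (G : SimpleGraph V) (A B : Set V) : Prop :=
  ∃ v, v ∈ B ∧ v ∉ A ∧ (∀ x ∈ B, x ∉ A → x = v) ∧ ∀ x ∈ A, x ∉ B → G.Adj v x

def RA (G : SimpleGraph V) (A B : Set V) : Prop := EX G A B ∨ EX G B A

def Cyc (G : SimpleGraph V) (W : Set V) : Prop :=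
  (∃ a b c, MD G W a ∧ MD G W b ∧ MD G W c ∧ RA G a b ∧ RA G b c ∧ RA G c a) ∨
  (∃ a b c d, MD G W a ∧ MD G W b ∧ MD G W c ∧ MD G W d ∧ RA G a b ∧ RA G b c ∧ RA G c d ∧
    RA G d a ∧ a ≠ c ∧ b ≠ d) ∨
  (∃ a b c d e, MD G W a ∧ MD G W b ∧ MD G W c ∧ MD G W d ∧ MD G W e ∧ RA G a b ∧ RA G b c ∧
    RA G c d ∧ RA G d e ∧ RA G e a ∧ a ≠ c ∧ a ≠ d ∧ b ≠ d ∧ b ≠ e ∧ c ≠ e)

def StarLike (G : SimpleGraph V) (W : Set V) : Prop :=
  ∃ c, ∀ x ∈ W, ∀ y ∈ W, G.Adj x y → x = c ∨ y = c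

def Rm (G : SimpleGraph V) (W : Set V) (v : V) : Set V := {w | w ∈ W ∧ w ≠ v ∧ ¬ G.Adj v w}

variable {G : SimpleGraph V} {W : Set V}

theorem MD_lift {v : V} (hv : v ∈ W) {M : Set V} (h : MD G (Rm G W v) M) :
    MD G W (insert v M) := by
  obtain ⟨h1, h2, h3⟩ := h
  refine ⟨?_, ?_, ?_⟩
  · intro x hx
    rcases hx with rfl | hx
    · exact hv
    · exact (h1 x hx).1
  · intro w hw
    by_cases hwv : w = v
    · exact ⟨v, Or.inl rfl, Or.inl hwv.symm⟩
    by_cases ha : G.Adj v w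
    · exact ⟨v, Or.inl rfl, Or.inr ha.symm⟩
    obtain ⟨u, hu, h⟩ := h2 w ⟨hw, hwv, ha⟩
    exact ⟨u, Or.inr hu, h⟩
  · intro m hm
    rcases hm with rfl | hm
    · refine ⟨m, hv, ?_⟩
      intro u hu h
      rcases hu with rfl | hu
      · rfl
      · have := h1 u hu
        rcases h with h | h
        · exact h
        · exact absurd h this.2.2
    · obtain ⟨w, hw, hp⟩ := h3 m hm
      refine ⟨w, hw.1, ?_⟩
      intro u hu h
      rcases hu with rfl | hu
      · rcases h with h | h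
        · exact absurd h.symm hw.2.1
        · exact absurd h.symm hw.2.2
      · exact hp u hu h

theorem EX_lift {v : V} {A B : Set V} (hA : v ∉ A) (hB : v ∉ B) (h : EX G A B) :
    EX G (insert v A) (insert v B) := by
  obtain ⟨z, h1, h2, h3, h4⟩ := h
  refine ⟨z, Or.inr h1, ?_, ?_, ?_⟩
  · rintro (rfl | h)
    · exact hB h1
    · exact h2 h
  · rintro x (rfl | hx) hn
    · exact absurd (Or.inl rfl) hn
    · exact h3 x hx (fun h => hn (Or.inr h))
  · rintro x (rfl | hx) hn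
    · exact absurd (Or.inl rfl) hn
    · exact h4 x hx (fun h => hn (Or.inr h))

theorem RA_lift {v : V} {A B : Set V} (hA : v ∉ A) (hB : v ∉ B) (h : RA G A B) :
    RA G (insert v A) (insert v B) := by
  rcases h with h | h
  · exact Or.inl (EX_lift hA hB h)
  · exact Or.inr (EX_lift hB hA h)

theorem ne_lift {v : V} {A B : Set V} (hA : v ∉ A) (hB : v ∉ B) (h : A ≠ B) :
    insert v A ≠ insert v B := by
  intro he
  apply h
  ext x
  have := Set.ext_iff.1 he x
  simp only [Set.mem_insert_iff] at this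
  grind

theorem Cyc_lift {v : V} (hv : v ∈ W) (h : Cyc G (Rm G W v)) : Cyc G W := by
  have key : ∀ M, MD G (Rm G W v) M → v ∉ M := fun M hM hvM => (hM.1 v hvM).2.1 rfl
  rcases h with ⟨a, b, c, ha, hb, hc, h1, h2, h3⟩ | ⟨a, b, c, d, ha, hb, hc, hd, h1, h2, h3, h4, n1, n2⟩ |
    ⟨a, b, c, d, e, ha, hb, hc, hd, he, h1, h2, h3, h4, h5, n1, n2, n3, n4, n5⟩
  · exact Or.inl ⟨_, _, _, MD_lift hv ha, MD_lift hv hb, MD_lift hv hc,
      RA_lift (key _ ha) (key _ hb) h1, RA_lift (key _ hb) (key _ hc) h2,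
      RA_lift (key _ hc) (key _ ha) h3⟩
  · exact Or.inr (Or.inl ⟨_, _, _, _, MD_lift hv ha, MD_lift hv hb, MD_lift hv hc, MD_lift hv hd,
      RA_lift (key _ ha) (key _ hb) h1, RA_lift (key _ hb) (key _ hc) h2,
      RA_lift (key _ hc) (key _ hd) h3, RA_lift (key _ hd) (key _ ha) h4,
      ne_lift (key _ ha) (key _ hc) n1, ne_lift (key _ hb) (key _ hd) n2⟩)
  · exact Or.inr (Or.inr ⟨_, _, _, _, _, MD_lift hv ha, MD_lift hv hb, MD_lift hv hc,
      MD_lift hv hd, MD_lift hv he,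
      RA_lift (key _ ha) (key _ hb) h1, RA_lift (key _ hb) (key _ hc) h2,
      RA_lift (key _ hc) (key _ hd) h3, RA_lift (key _ hd) (key _ he) h4,
      RA_lift (key _ he) (key _ ha) h5,
      ne_lift (key _ ha) (key _ hc) n1, ne_lift (key _ ha) (key _ hd) n2,
      ne_lift (key _ hb) (key _ hd) n3, ne_lift (key _ hb) (key _ he) n4,
      ne_lift (key _ hc) (key _ he) n5⟩)

theorem MD_indep {M : Set V} (h1 : ∀ x ∈ M, x ∈ W) (h2 : ∀ x ∈ M, ∀ y ∈ M, ¬ G.Adj x y)
    (h3 : ∀ w ∈ W, w ∉ M → ∃ u ∈ M, G.Adj w u) : MD G W M := by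
  refine ⟨h1, ?_, ?_⟩
  · intro w hw
    by_cases h : w ∈ M
    · exact ⟨w, h, Or.inl rfl⟩
    · obtain ⟨u, hu, h⟩ := h3 w hw h
      exact ⟨u, hu, Or.inr h⟩
  · intro m hm
    refine ⟨m, h1 m hm, ?_⟩
    rintro u hu (h | h)
    · exact h
    · exact absurd h (h2 m hm u hu)

theorem MD_pair {x y : V} (hx : x ∈ W) (hy : y ∈ W) 
    (hd : ∀ w ∈ W, w = x ∨ w = y ∨ G.Adj w x ∨ G.Adj w y)
    (px : ∃ w ∈ W, w ≠ y ∧ ¬ G.Adj w y) (py : ∃ w ∈ W, w ≠ x ∧ ¬ G.Adj w x) :
    MD G W {x, y} := by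
  refine ⟨?_, ?_, ?_⟩
  · rintro z (rfl | rfl) <;> assumption
  · intro w hw
    rcases hd w hw with h | h | h | h
    · exact ⟨x, by simp, Or.inl h.symm⟩
    · exact ⟨y, by simp, Or.inl h.symm⟩
    · exact ⟨x, by simp, Or.inr h⟩
    · exact ⟨y, by simp, Or.inr h⟩
  · rintro m (rfl | rfl)
    · obtain ⟨w, hw, h1, h2⟩ := px
      refine ⟨w, hw, ?_⟩
      rintro u (rfl | rfl) h
      · rfl
      · rcases h with h | h
        · exact absurd h.symm h1
        · exact absurd h h2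
    · obtain ⟨w, hw, h1, h2⟩ := py
      refine ⟨w, hw, ?_⟩
      rintro u (rfl | rfl) h
      · rcases h with h | h
        · exact absurd h.symm h1
        · exact absurd h h2
      · rfl

structure Conf (G : SimpleGraph V) (W T B L : Set V) (s : V) : Prop where
  TW : ∀ x ∈ T, x ∈ W
  BW : ∀ x ∈ B, x ∈ W
  LW : ∀ x ∈ L, x ∈ W
  sW : s ∈ W
  Tne : T.Nonempty
  Lne : L.Nonempty
  cov : ∀ w ∈ W, w ∈ T ∨ w ∈ B ∨ w = s ∨ w ∈ L
  TT : ∀ x ∈ T, ∀ y ∈ T, ¬ G.Adj x y
  TB : ∀ x ∈ T, ∀ b ∈ B, G.Adj x b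
  Ts : ∀ x ∈ T, ¬ G.Adj x s
  TL : ∀ x ∈ T, ∀ l ∈ L, ¬ G.Adj x l
  sT : s ∉ T
  LT : ∀ l ∈ L, l ∉ T
  sL : ∀ l ∈ L, G.Adj s l
  LL : ∀ l ∈ L, ∀ l' ∈ L, ¬ G.Adj l l'

namespace Conf
variable {T B L : Set V} {s : V} (h : Conf G W T B L s)
include h

theorem BT : ∀ b ∈ B, b ∉ T := fun b hb hT => h.TT b hT b hT (h.TB b hT b hb)
theorem sB : s ∉ B := fun hs => by
  obtain ⟨t, ht⟩ := h.Tne
  exact h.Ts t ht (h.TB t ht s hs)
theorem LB : ∀ l ∈ L, l ∉ B := fun l hl hB => by
  obtain ⟨t, ht⟩ := h.Tne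
  exact h.TL t ht l hl (h.TB t ht l hB)
theorem sLn : s ∉ L := fun hs => G.irrefl (h.sL s hs)

theorem md1 : MD G W (insert s T) := by
  apply MD_indep
  · rintro x (rfl | hx)
    · exact h.sW
    · exact h.TW x hx
  · rintro x (rfl | hx) y (rfl | hy)
    · exact G.irrefl
    · exact fun ha => h.Ts y hy ha.symm
    · exact h.Ts x hx
    · exact h.TT x hx y hy
  · intro w hw hn
    rcases h.cov w hw with h1 | h1 | h1 | h1
    · exact absurd (Or.inr h1) hn
    · obtain ⟨t, ht⟩ := h.Tne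
      exact ⟨t, Or.inr ht, (h.TB t ht w h1).symm⟩
    · exact absurd (Or.inl h1) hn
    · exact ⟨s, Or.inl rfl, (h.sL w h1).symm⟩

theorem md2 : MD G W (T ∪ L) := by
  apply MD_indep
  · rintro x (hx | hx)
    · exact h.TW x hx
    · exact h.LW x hx
  · rintro x (hx | hx) y (hy | hy)
    · exact h.TT x hx y hy
    · exact h.TL x hx y hy
    · exact fun ha => h.TL y hy x hx ha.symm
    · exact h.LL x hx y hy
  · intro w hw hn
    rcases h.cov w hw with h1 | h1 | h1 | h1
    · exact absurd (Or.inl h1) hn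
    · obtain ⟨t, ht⟩ := h.Tne
      exact ⟨t, Or.inl ht, (h.TB t ht w h1).symm⟩
    · obtain ⟨l, hl⟩ := h.Lne
      subst h1
      exact ⟨l, Or.inr hl, h.sL l hl⟩
    · exact absurd (Or.inr h1) hn

theorem ra12 : RA G (insert s T) (T ∪ L) := by
  right
  refine ⟨s, Or.inl rfl, ?_, ?_, ?_⟩
  · rintro (hx | hx)
    · exact h.sT hx
    · exact h.sLn hx
  · rintro x (hx | hx) hn
    · exact hx
    · exact absurd (Or.inl hx) hn
  · rintro x (hx | hx) hn
    · exact absurd (Or.inr hx) hn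
    · exact h.sL x hx

end Conf

/-- case C1 -/
theorem caseC1 {T B L : Set V} {s b : V} (h : Conf G W T B L s) (hb : b ∈ B)
    (hbB : ∀ b' ∈ B, b' ≠ b → G.Adj b b') (hu : ∃ w ∈ W, w ≠ b ∧ ¬ G.Adj b w) :
    Cyc G W := by
  obtain ⟨t, ht⟩ := h.Tne
  have hbT : b ∉ T := h.BT b hb
  have hbs : b ≠ s := fun e => h.sB (e ▸ hb)
  have hbL : b ∉ L := fun e => h.LB b e hb
  have hTb : ∀ x ∈ T, G.Adj b x := fun x hx => (h.TB x hx b hb).symm
  right; left
  -- the set L'' : nonneighbours of b in L, or a single element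
  by_cases hL' : ∃ l ∈ L, ¬ G.Adj b l
  · -- D3 = {b} ∪ L', D2 = {b, s}
    set L' : Set V := {l | l ∈ L ∧ ¬ G.Adj b l} with hL'def
    refine ⟨insert s T, T ∪ L, insert b L', {b, s}, h.md1, h.md2, ?_, ?_, h.ra12, ?_, ?_, ?_, ?_, ?_⟩
    · apply MD_indep
      · rintro x (rfl | hx)
        · exact h.BW _ hb
        · exact h.LW x hx.1
      · rintro x (rfl | hx) y (rfl | hy)
        · exact G.irrefl
        · exact hy.2
        · exact fun ha => hx.2 ha.symm
        · exact h.LL x hx.1 y hy.1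
      · intro w hw hn
        rcases h.cov w hw with h1 | h1 | h1 | h1
        · exact ⟨b, Or.inl rfl, (hTb w h1).symm⟩
        · exact ⟨b, Or.inl rfl, (hbB w h1 (fun e => hn (Or.inl e))).symm⟩
        · obtain ⟨l, hl, hl'⟩ := hL'
          subst h1
          exact ⟨l, Or.inr ⟨hl, hl'⟩, h.sL l hl⟩
        · by_cases ha : G.Adj b w
          · exact ⟨b, Or.inl rfl, ha.symm⟩
          · exact absurd (Or.inr ⟨h1, ha⟩) hn
    · obtain ⟨l, hl, hl'⟩ := hL'
      apply MD_pair (h.BW b hb) h.sW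
      · intro w hw
        rcases h.cov w hw with h1 | h1 | h1 | h1
        · exact Or.inr (Or.inr (Or.inl (hTb w h1).symm))
        · by_cases e : w = b
          · exact Or.inl e
          · exact Or.inr (Or.inr (Or.inl (hbB w h1 e).symm))
        · exact Or.inr (Or.inl h1)
        · exact Or.inr (Or.inr (Or.inr (h.sL w h1).symm))
      · exact ⟨t, h.TW t ht, fun e => h.sT (e ▸ ht), h.Ts t ht⟩
      · exact ⟨l, h.LW l hl, fun e => hbL (e ▸ hl), fun ha => hl' ha.symm⟩
    · -- T ∪ L ~ insert b L'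
      left
      refine ⟨b, Or.inl rfl, ?_, ?_, ?_⟩
      · rintro (hx | hx)
        · exact hbT hx
        · exact hbL hx
      · rintro x (hx | hx) hn
        · exact hx
        · exact absurd (Or.inr hx.1) hn
      · rintro x (hx | hx) hn
        · exact hTb x hx
        · by_contra ha
          exact hn (Or.inr ⟨hx, ha⟩)
    · left
      refine ⟨s, by simp, ?_, ?_, ?_⟩
      · rintro (hx | hx)
        · exact hbs hx.symm
        · exact h.sLn hx.1
      · rintro x (hx | hx) hn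
        · exact absurd (Or.inl hx) hn
        · exact hx
      · rintro x (hx | hx) hn
        · exact absurd (Or.inl hx) hn
        · exact h.sL x hx.1
    · right
      refine ⟨b, by simp, ?_, ?_, ?_⟩
      · rintro (hx | hx)
        · exact hbs hx
        · exact hbT hx
      · rintro x (hx | hx) hn
        · exact hx
        · exact absurd (Or.inl hx) hn
      · rintro x (hx | hx) hn
        · exact absurd (Or.inr hx) hn
        · exact hTb x hx
    · intro e
      have : b ∈ insert s T := e ▸ (Or.inl rfl : b ∈ insert b L')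
      rcases this with h1 | h1
      · exact hbs h1
      · exact hbT h1
    · intro e
      have : b ∈ T ∪ L := e ▸ (Or.inl rfl : b ∈ ({b, s} : Set V))
      rcases this with h1 | h1
      · exact hbT h1
      · exact hbL h1
  · push Not at hL'
    -- b adjacent to all of L, hence not adjacent to s
    have hbs' : ¬ G.Adj b s := by
      intro ha
      obtain ⟨w, hw, hwb, hwa⟩ := hu
      rcases h.cov w hw with h1 | h1 | h1 | h1
      · exact hwa (hTb w h1)
      · exact hwa (hbB w h1 hwb)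
      · exact hwa (h1 ▸ ha)
      · exact hwa (hL' w h1)
    obtain ⟨l, hl⟩ := h.Lne
    have hlb : b ≠ l := fun e => hbL (e ▸ hl)
    refine ⟨insert s T, T ∪ L, {b, l}, {b, s}, h.md1, h.md2, ?_, ?_, h.ra12, ?_, ?_, ?_, ?_, ?_⟩
    · apply MD_pair (h.BW b hb) (h.LW l hl)
      · intro w hw
        rcases h.cov w hw with h1 | h1 | h1 | h1
        · exact Or.inr (Or.inr (Or.inl (hTb w h1).symm))
        · by_cases e : w = b
          · exact Or.inl e
          · exact Or.inr (Or.inr (Or.inl (hbB w h1 e).symm))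
        · subst h1
          exact Or.inr (Or.inr (Or.inr (h.sL l hl)))
        · exact Or.inr (Or.inr (Or.inl (hL' w h1).symm))
      · exact ⟨t, h.TW t ht, fun e => h.LT l hl (e ▸ ht), h.TL t ht l hl⟩
      · exact ⟨s, h.sW, hbs.symm, fun ha => hbs' ha.symm⟩
    · apply MD_indep
      · rintro x (rfl | rfl)
        · exact h.BW _ hb
        · exact h.sW
      · rintro x (rfl | rfl) y (rfl | rfl)
        · exact G.irrefl
        · exact hbs'
        · exact fun ha => hbs' ha.symm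
        · exact G.irrefl
      · intro w hw hn
        rcases h.cov w hw with h1 | h1 | h1 | h1
        · exact ⟨b, Or.inl rfl, (hTb w h1).symm⟩
        · exact ⟨b, Or.inl rfl, (hbB w h1 (fun e => hn (Or.inl e))).symm⟩
        · exact absurd (Or.inr h1) hn
        · exact ⟨b, Or.inl rfl, (hL' w h1).symm⟩
    · left
      refine ⟨b, Or.inl rfl, ?_, ?_, ?_⟩
      · rintro (hx | hx)
        · exact hbT hx
        · exact hbL hx
      · rintro x (hx | hx) hn
        · exact hx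
        · exact absurd (Or.inr (hx ▸ hl)) hn
      · rintro x (hx | hx) hn
        · exact hTb x hx
        · exact hL' x hx
    · left
      refine ⟨s, by simp, ?_, ?_, ?_⟩
      · rintro (hx | hx)
        · exact hbs hx.symm
        · exact h.sLn (hx ▸ hl)
      · rintro x (hx | hx) hn
        · exact absurd (Or.inl hx) hn
        · exact hx
      · rintro x (hx | hx) hn
        · exact absurd (Or.inl hx) hn
        · rw [hx]; exact h.sL l hl
    · right
      refine ⟨b, by simp, ?_, ?_, ?_⟩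
      · rintro (hx | hx)
        · exact hbs hx
        · exact hbT hx
      · rintro x (hx | hx) hn
        · exact hx
        · exact absurd (Or.inl hx) hn
      · rintro x (hx | hx) hn
        · exact absurd (Or.inr hx) hn
        · exact hTb x hx
    · intro e
      have : b ∈ insert s T := e ▸ (Or.inl rfl : b ∈ ({b, l} : Set V))
      rcases this with h1 | h1
      · exact hbs h1
      · exact hbT h1
    · intro e
      have : b ∈ T ∪ L := e ▸ (Or.inl rfl : b ∈ ({b, s} : Set V))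
      rcases this with h1 | h1
      · exact hbT h1
      · exact hbL h1

theorem mem_Rm {v w : V} : w ∈ Rm G W v ↔ w ∈ W ∧ w ≠ v ∧ ¬ G.Adj v w := Iff.rfl

theorem caseC2 {T B L : Set V} {s t₁ t₂ : V} (h : Conf G W T B L s) (ht1 : t₁ ∈ T) (ht2 : t₂ ∈ T)
    (h12 : t₁ ≠ t₂) (hS : ∀ x ∈ W, StarLike G (Rm G W x)) (hne : B.Nonempty)
    (hB : ∀ b ∈ B, ∃ c ∈ B, c ≠ b ∧ ¬ G.Adj b c) : Cyc G W := by
  have uniq : ∀ x, (x = s ∨ x ∈ L) → ∀ b₁ ∈ B, ∀ b₂ ∈ B, ¬ G.Adj x b₁ → ¬ G.Adj x b₂ → b₁ = b₂ := by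
    intro x hx b₁ hb1 b₂ hb2 n1 n2
    have hxW : x ∈ W := by
      rcases hx with rfl | hx
      · exact h.sW
      · exact h.LW x hx
    have hxT : ∀ t ∈ T, t ≠ x ∧ ¬ G.Adj x t := by
      intro t ht
      rcases hx with rfl | hx
      · exact ⟨fun e => h.sT (e ▸ ht), fun ha => h.Ts t ht ha.symm⟩
      · exact ⟨fun e => h.LT x hx (e ▸ ht), fun ha => h.TL t ht x hx ha.symm⟩
    have hxB : ∀ b ∈ B, b ≠ x := by
      rintro b hb rfl
      rcases hx with rfl | hx
      · exact h.sB hb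
      · exact h.LB _ hx hb
    obtain ⟨c, hc⟩ := hS x hxW
    have m1 : t₁ ∈ Rm G W x := ⟨h.TW _ ht1, (hxT _ ht1).1, (hxT _ ht1).2⟩
    have m2 : t₂ ∈ Rm G W x := ⟨h.TW _ ht2, (hxT _ ht2).1, (hxT _ ht2).2⟩
    have m3 : b₁ ∈ Rm G W x := ⟨h.BW _ hb1, hxB _ hb1, n1⟩
    have m4 : b₂ ∈ Rm G W x := ⟨h.BW _ hb2, hxB _ hb2, n2⟩
    have e1 := hc _ m1 _ m3 (h.TB _ ht1 _ hb1)
    have e2 := hc _ m2 _ m3 (h.TB _ ht2 _ hb1)
    have e3 := hc _ m1 _ m4 (h.TB _ ht1 _ hb2)
    have e4 := hc _ m2 _ m4 (h.TB _ ht2 _ hb2)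
    grind
  by_cases hj : ∃ j ∈ B, ∀ x, (x = s ∨ x ∈ L) → G.Adj j x
  · obtain ⟨j, hjB, hj⟩ := hj
    have hjT : j ∉ T := h.BT j hjB
    have hjs : j ≠ s := fun e => h.sB (e ▸ hjB)
    have hjL : j ∉ L := fun e => h.LB j e hjB
    have hTj : ∀ x ∈ T, G.Adj j x := fun x hx => (h.TB x hx j hjB).symm
    left
    refine ⟨{t₁, j}, insert s T, T ∪ L, ?_, h.md1, h.md2, ?_, h.ra12, ?_⟩
    · obtain ⟨c, hc, hcj, hca⟩ := hB j hjB
      apply MD_pair (h.TW _ ht1) (h.BW _ hjB)
      · intro w hw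
        rcases h.cov w hw with h1 | h1 | h1 | h1
        · exact Or.inr (Or.inr (Or.inr (hTj w h1).symm))
        · exact Or.inr (Or.inr (Or.inl (h.TB _ ht1 w h1).symm))
        · exact Or.inr (Or.inr (Or.inr (hj w (Or.inl h1)).symm))
        · exact Or.inr (Or.inr (Or.inr (hj w (Or.inr h1)).symm))
      · exact ⟨c, h.BW c hc, hcj, fun ha => hca ha.symm⟩
      · exact ⟨t₂, h.TW _ ht2, h12.symm, h.TT _ ht2 _ ht1⟩
    · right
      refine ⟨j, by simp, ?_, ?_, ?_⟩
      · rintro (hx | hx)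
        · exact hjs hx
        · exact hjT hx
      · rintro x (hx | hx) hn
        · exact absurd (Or.inr (hx ▸ ht1)) hn
        · exact hx
      · rintro x (hx | hx) hn
        · exact hj x (Or.inl hx)
        · exact hTj x hx
    · left
      refine ⟨j, by simp, ?_, ?_, ?_⟩
      · rintro (hx | hx)
        · exact hjT hx
        · exact hjL hx
      · rintro x (hx | hx) hn
        · exact absurd (Or.inl (hx ▸ ht1)) hn
        · exact hx
      · rintro x (hx | hx) hn
        · exact hTj x hx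
        · exact hj x (Or.inr hx)
  push Not at hj
  let C : V → Set V := fun j => {c | c ∈ B ∧ c ≠ j ∧ ¬ G.Adj j c}
  let X : V → Set V := fun j => {x | (x = s ∨ x ∈ L) ∧ ¬ G.Adj j x}
  have hXW : ∀ j, ∀ x ∈ X j, x ∈ W := by
    rintro j x ⟨hx | hx, _⟩
    · exact hx ▸ h.sW
    · exact h.LW x hx
  have hXB : ∀ j, ∀ x ∈ X j, x ∉ B := by
    rintro j x ⟨hx | hx, _⟩
    · exact hx ▸ h.sB
    · exact h.LB x hx
  have hXT : ∀ j, ∀ x ∈ X j, x ∉ T := by
    rintro j x ⟨hx | hx, _⟩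
    · exact hx ▸ h.sT
    · exact h.LT x hx
  have hCX : ∀ j ∈ B, ∀ c ∈ C j, ∀ x ∈ X j, G.Adj c x := by
    rintro j hjB c ⟨hcB, hcj, hca⟩ x ⟨hx, hxa⟩
    by_contra ha
    exact hcj (uniq x hx c hcB j hjB (fun a => ha a.symm) (fun a => hxa a.symm))
  have hCne : ∀ j ∈ B, (C j).Nonempty := by
    intro j hjB
    obtain ⟨c, hc, h1, h2⟩ := hB j hjB
    exact ⟨c, hc, h1, h2⟩
  have hXne : ∀ j ∈ B, (X j).Nonempty := by
    intro j hjB
    obtain ⟨x, hx, h1⟩ := hj j hjB
    exact ⟨x, hx, h1⟩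
  have hCR : ∀ j ∈ B, ∀ c ∈ C j, c ∈ Rm G W j := fun j _ c hc => ⟨h.BW c hc.1, hc.2.1, hc.2.2⟩
  have hXR : ∀ j ∈ B, ∀ x ∈ X j, x ∈ Rm G W j := fun j hjB x hx =>
    ⟨hXW j x hx, fun e => hXB j x hx (e ▸ hjB), hx.2⟩
  -- structure from StarLike
  have key : ∀ j ∈ B, (∀ x ∈ C j, ∀ y ∈ C j, ¬ G.Adj x y) ∧ (∀ x ∈ X j, ∀ y ∈ X j, ¬ G.Adj x y) ∧
      ((∀ x ∈ C j, ∀ y ∈ C j, x = y) ∨ (∀ x ∈ X j, ∀ y ∈ X j, x = y)) := by
    intro j hjB
    obtain ⟨z, hz⟩ := hS j (h.BW j hjB)
    obtain ⟨c, hc⟩ := hCne j hjB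
    obtain ⟨x, hx⟩ := hXne j hjB
    have hne : ∀ c ∈ C j, ∀ x ∈ X j, c ≠ x := fun c hc x hx e => hXB j x hx (e ▸ hc.1)
    have hcx : ∀ c ∈ C j, ∀ x ∈ X j, c = z ∨ x = z := fun c hc x hx =>
      hz c (hCR j hjB c hc) x (hXR j hjB x hx) (hCX j hjB c hc x hx)
    refine ⟨?_, ?_, ?_⟩
    · intro a ha b hb hab
      have e1 := hz a (hCR j hjB a ha) b (hCR j hjB b hb) hab
      have e2 := hcx a ha x hx
      have e3 := hcx b hb x hx
      have e4 := G.ne_of_adj hab
      have e5 := hne a ha x hx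
      have e6 := hne b hb x hx
      grind
    · intro a ha b hb hab
      have e1 := hz a (hXR j hjB a ha) b (hXR j hjB b hb) hab
      have e2 := hcx c hc a ha
      have e3 := hcx c hc b hb
      have e4 := G.ne_of_adj hab
      have e5 := hne c hc a ha
      have e6 := hne c hc b hb
      grind
    · by_cases hcz : ∀ a ∈ C j, a = z
      · left
        intro a ha b hb
        rw [hcz a ha, hcz b hb]
      · right
        push Not at hcz
        obtain ⟨a, ha, haz⟩ := hcz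
        intro p hp q hq
        have e1 := hcx a ha p hp
        have e2 := hcx a ha q hq
        grind
  have hY : ∀ j ∈ B, MD G W (insert j (X j)) := by
    intro j hjB
    obtain ⟨k1, k2, k3⟩ := key j hjB
    apply MD_indep
    · rintro x (rfl | hx)
      · exact h.BW _ hjB
      · exact hXW j x hx
    · rintro x (rfl | hx) y (rfl | hy)
      · exact G.irrefl
      · exact hy.2
      · exact fun ha => hx.2 ha.symm
      · exact k2 x hx y hy
    · intro w hw hn
      rcases h.cov w hw with h1 | h1 | h1 | h1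
      · exact ⟨j, Or.inl rfl, h.TB w h1 j hjB⟩
      · by_cases ha : G.Adj j w
        · exact ⟨j, Or.inl rfl, ha.symm⟩
        · obtain ⟨x, hx⟩ := hXne j hjB
          exact ⟨x, Or.inr hx, hCX j hjB w ⟨h1, fun e => hn (Or.inl e), ha⟩ x hx⟩
      · by_cases ha : G.Adj j w
        · exact ⟨j, Or.inl rfl, ha.symm⟩
        · exact absurd (Or.inr ⟨Or.inl h1, ha⟩) hn
      · by_cases ha : G.Adj j w
        · exact ⟨j, Or.inl rfl, ha.symm⟩
        · exact absurd (Or.inr ⟨Or.inr h1, ha⟩) hn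
  have hJ : ∀ j ∈ B, MD G W (insert j (C j)) := by
    intro j hjB
    obtain ⟨k1, k2, k3⟩ := key j hjB
    obtain ⟨c, hc⟩ := hCne j hjB
    have hSdom : ∀ w, (w = s ∨ w ∈ L) → ∃ u ∈ insert j (C j), G.Adj w u := by
      intro w hw
      by_cases ha : G.Adj j w
      · exact ⟨j, Or.inl rfl, ha.symm⟩
      · exact ⟨c, Or.inr hc, (hCX j hjB c hc w ⟨hw, ha⟩).symm⟩
    apply MD_indep
    · rintro x (rfl | hx)
      · exact h.BW _ hjB
      · exact h.BW x hx.1
    · rintro x (rfl | hx) y (rfl | hy)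
      · exact G.irrefl
      · exact hy.2.2
      · exact fun ha => hx.2.2 ha.symm
      · exact k1 x hx y hy
    · intro w hw hn
      rcases h.cov w hw with h1 | h1 | h1 | h1
      · exact ⟨j, Or.inl rfl, h.TB w h1 j hjB⟩
      · by_cases ha : G.Adj j w
        · exact ⟨j, Or.inl rfl, ha.symm⟩
        · exact absurd (Or.inr ⟨h1, fun e => hn (Or.inl e), ha⟩) hn
      · exact hSdom w (Or.inl h1)
      · exact hSdom w (Or.inr h1)
  have hYJ : ∀ j ∈ B, RA G (insert j (X j)) (insert j (C j)) := by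
    intro j hjB
    obtain ⟨k1, k2, k3⟩ := key j hjB
    have hjX : j ∉ X j := fun hx => hXB j j hx hjB
    rcases k3 with k3 | k3
    · obtain ⟨c, hc⟩ := hCne j hjB
      left
      refine ⟨c, Or.inr hc, ?_, ?_, ?_⟩
      · rintro (hx | hx)
        · exact hc.2.1 hx
        · exact hXB j c hx hc.1
      · rintro x (hx | hx) hn
        · exact absurd (Or.inl hx) hn
        · exact k3 x hx c hc
      · rintro x (hx | hx) hn
        · exact absurd (Or.inl hx) hn
        · exact hCX j hjB c hc x hx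
    · obtain ⟨x₀, hx₀⟩ := hXne j hjB
      right
      refine ⟨x₀, Or.inr hx₀, ?_, ?_, ?_⟩
      · rintro (hx | hx)
        · exact hXB j x₀ hx₀ (hx ▸ hjB)
        · exact hXB j x₀ hx₀ hx.1
      · rintro x (hx | hx) hn
        · exact absurd (Or.inl hx) hn
        · exact k3 x hx x₀ hx₀
      · rintro x (hx | hx) hn
        · exact absurd (Or.inl hx) hn
        · exact (hCX j hjB x hx x₀ hx₀).symm
  have hJJ : ∀ b ∈ B, ∀ c ∈ C b, insert c (C c) = insert b (C b) := by
    intro b hbB c hc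
    have hbc : b ∈ C c := ⟨hbB, hc.2.1.symm, fun ha => hc.2.2 ha.symm⟩
    have k1 := (key b hbB).1
    have k2 := (key c hc.1).1
    ext x
    constructor
    · rintro (hx | hx)
      · subst hx; exact Or.inr hc
      · by_cases e : x = b
        · exact Or.inl e
        · exact Or.inr ⟨hx.1, e, fun ha => k2 b hbc x hx ha⟩
    · rintro (hx | hx)
      · subst hx; exact Or.inr hbc
      · by_cases e : x = c
        · exact Or.inl e
        · exact Or.inr ⟨hx.1, e, fun ha => k1 c hc x hx ha⟩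
  obtain ⟨b, hb⟩ := hne
  obtain ⟨c, hc⟩ := hCne b hb
  have hcB : c ∈ B := hc.1
  have hYJc : RA G (insert c (X c)) (insert b (C b)) := hJJ b hb c hc ▸ hYJ c hcB
  -- adjacency with A2 if s ∉ X j, with A1 if s ∈ X j
  have hA2 : ∀ j ∈ B, s ∉ X j → RA G (T ∪ L) (insert j (X j)) := by
    intro j hjB hs
    left
    refine ⟨j, Or.inl rfl, ?_, ?_, ?_⟩
    · rintro (hx | hx)
      · exact h.BT j hjB hx
      · exact h.LB j hx hjB
    · rintro x (hx | hx) hn
      · exact hx
      · rcases hx.1 with h1 | h1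
        · exact absurd (h1 ▸ hx) hs
        · exact absurd (Or.inr h1) hn
    · rintro x (hx | hx) hn
      · exact (h.TB x hx j hjB).symm
      · by_contra ha
        exact hn (Or.inr ⟨Or.inr hx, ha⟩)
  have hA1 : ∀ j ∈ B, s ∈ X j → RA G (insert s T) (insert j (X j)) := by
    intro j hjB hs
    have hXs : ∀ x ∈ X j, x = s := by
      intro x hx
      rcases hx.1 with h1 | h1
      · exact h1
      · exact absurd (h.sL x h1) ((key j hjB).2.1 s hs x hx)
    left
    refine ⟨j, Or.inl rfl, ?_, ?_, ?_⟩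
    · rintro (hx | hx)
      · exact h.sB (hx ▸ hjB)
      · exact h.BT j hjB hx
    · rintro x (hx | hx) hn
      · exact hx
      · exact absurd (Or.inl (hXs x hx)) hn
    · rintro x (hx | hx) hn
      · exact absurd (Or.inr (hx ▸ hs)) hn
      · exact (h.TB x hx j hjB).symm
  have hsym : ∀ A B, RA G A B → RA G B A := fun A B h => h.symm
  have hsbc : s ∈ X b → s ∉ X c := by
    intro h1 h2
    exact hc.2.1 (uniq s (Or.inl rfl) c hcB b hb (fun a => h2.2 a.symm) (fun a => h1.2 a.symm))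
  have d1 : ∀ j ∈ B, insert j (X j) ≠ insert s T := by
    intro j hjB e
    have : t₁ ∈ insert j (X j) := e ▸ Or.inr ht1
    rcases this with h1 | h1
    · exact h.BT j hjB (h1 ▸ ht1)
    · exact hXT j _ h1 ht1
  have d2 : ∀ j ∈ B, insert j (X j) ≠ T ∪ L := by
    intro j hjB e
    have : t₁ ∈ insert j (X j) := e ▸ Or.inl ht1
    rcases this with h1 | h1
    · exact h.BT j hjB (h1 ▸ ht1)
    · exact hXT j _ h1 ht1
  have d3 : insert b (C b) ≠ insert s T := by
    intro e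
    have : t₁ ∈ insert b (C b) := e ▸ Or.inr ht1
    rcases this with h1 | h1
    · exact h.BT b hb (h1 ▸ ht1)
    · exact h.BT _ h1.1 ht1
  have d4 : insert b (C b) ≠ T ∪ L := by
    intro e
    have : t₁ ∈ insert b (C b) := e ▸ Or.inl ht1
    rcases this with h1 | h1
    · exact h.BT b hb (h1 ▸ ht1)
    · exact h.BT _ h1.1 ht1
  have d5 : insert b (X b) ≠ insert c (X c) := by
    intro e
    have : b ∈ insert c (X c) := e ▸ Or.inl rfl
    rcases this with h1 | h1
    · exact hc.2.1 h1.symm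
    · exact hXB c b h1 hb
  by_cases hsb : s ∈ X b
  · right; right
    exact ⟨insert s T, insert b (X b), insert b (C b), insert c (X c), T ∪ L, h.md1, hY b hb,
      hJ b hb, hY c hcB, h.md2, hA1 b hb hsb, hYJ b hb, hsym _ _ hYJc,
      hsym _ _ (hA2 c hcB (hsbc hsb)), hsym _ _ h.ra12, d3.symm, (d1 c hcB).symm, d5,
      d2 b hb, d4⟩
  · by_cases hsc : s ∈ X c
    · right; right
      exact ⟨insert s T, insert c (X c), insert b (C b), insert b (X b), T ∪ L, h.md1, hY c hcB,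
        hJ b hb, hY b hb, h.md2, hA1 c hcB hsc, hYJc, hsym _ _ (hYJ b hb),
        hsym _ _ (hA2 b hb hsb), hsym _ _ h.ra12, d3.symm, (d1 b hb).symm, d5.symm,
        d2 c hcB, d4⟩
    · right; left
      exact ⟨T ∪ L, insert b (X b), insert b (C b), insert c (X c), h.md2, hY b hb, hJ b hb,
        hY c hcB, hA2 b hb hsb, hYJ b hb, hsym _ _ hYJc, hsym _ _ (hA2 c hcB hsc), d4.symm, d5⟩

structure Sym (G : SimpleGraph V) (W : Set V) (v s : V) (P L D : Set V) : Prop where
  vW : v ∈ W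
  sW : s ∈ W
  PW : ∀ x ∈ P, x ∈ W
  LW : ∀ x ∈ L, x ∈ W
  DW : ∀ x ∈ D, x ∈ W
  vs : v ≠ s
  nvs : ¬ G.Adj v s
  cov : ∀ w ∈ W, w = v ∨ w = s ∨ w ∈ P ∨ w ∈ L ∨ w ∈ D
  vP : ∀ p ∈ P, G.Adj v p
  sP : ∀ p ∈ P, ¬ G.Adj s p
  sL : ∀ l ∈ L, G.Adj s l
  vL : ∀ l ∈ L, ¬ G.Adj v l
  vD : ∀ d ∈ D, G.Adj v d
  sD : ∀ d ∈ D, G.Adj s d
  PP : ∀ x ∈ P, ∀ y ∈ P, ¬ G.Adj x y
  LL : ∀ x ∈ L, ∀ y ∈ L, ¬ G.Adj x y

namespace Sym
variable {v s : V} {P L D : Set V} (h : Sym G W v s P L D)
include h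

theorem symm : Sym G W s v L P D where
  vW := h.sW
  sW := h.vW
  PW := h.LW
  LW := h.PW
  DW := h.DW
  vs := h.vs.symm
  nvs := fun a => h.nvs a.symm
  cov := fun w hw => by rcases h.cov w hw with h | h | h | h | h <;> simp [h]
  vP := h.sL
  sP := h.vL
  sL := h.vP
  vL := h.sP
  vD := h.sD
  sD := h.vD
  PP := h.LL
  LL := h.PP

theorem vnP : v ∉ P := fun hv => G.irrefl (h.vP v hv)
theorem vnL : v ∉ L := fun hv => h.nvs (h.sL v hv).symm
theorem vnD : v ∉ D := fun hv => G.irrefl (h.vD v hv)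
theorem PL : ∀ x ∈ P, x ∉ L := fun x hx hL => h.vL x hL (h.vP x hx)
theorem PD : ∀ x ∈ P, x ∉ D := fun x hx hL => h.sP x hx (h.sD x hL)

theorem md1 : MD G W {v, s} := by
  apply MD_indep
  · rintro x (rfl | rfl)
    · exact h.vW
    · exact h.sW
  · rintro x (rfl | rfl) y (rfl | rfl)
    · exact G.irrefl
    · exact h.nvs
    · exact fun ha => h.nvs ha.symm
    · exact G.irrefl
  · intro w hw hn
    rcases h.cov w hw with h1 | h1 | h1 | h1 | h1
    · exact absurd (Or.inl h1) hn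
    · exact absurd (Or.inr h1) hn
    · exact ⟨v, Or.inl rfl, (h.vP w h1).symm⟩
    · exact ⟨s, Or.inr rfl, (h.sL w h1).symm⟩
    · exact ⟨s, Or.inr rfl, (h.sD w h1).symm⟩

theorem md2 (hL : L.Nonempty) : MD G W (insert v L) := by
  obtain ⟨l, hl⟩ := hL
  apply MD_indep
  · rintro x (rfl | hx)
    · exact h.vW
    · exact h.LW x hx
  · rintro x (rfl | hx) y (rfl | hy)
    · exact G.irrefl
    · exact h.vL y hy
    · exact fun ha => h.vL x hx ha.symm
    · exact h.LL x hx y hy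
  · intro w hw hn
    rcases h.cov w hw with h1 | h1 | h1 | h1 | h1
    · exact absurd (Or.inl h1) hn
    · exact ⟨l, Or.inr hl, h1 ▸ h.sL l hl⟩
    · exact ⟨v, Or.inl rfl, (h.vP w h1).symm⟩
    · exact absurd (Or.inr h1) hn
    · exact ⟨v, Or.inl rfl, (h.vD w h1).symm⟩

theorem ra12 : RA G {v, s} (insert v L) := by
  right
  refine ⟨s, by simp, ?_, ?_, ?_⟩
  · rintro (hx | hx)
    · exact h.vs hx.symm
    · exact G.irrefl (h.sL s hx)
  · rintro x (hx | hx) hn
    · exact absurd (Or.inl hx) hn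
    · exact hx
  · rintro x (hx | hx) hn
    · exact absurd (Or.inl hx) hn
    · exact h.sL x hx

theorem md3 (hP : P.Nonempty) : MD G W (insert s P) := h.symm.md2 hP

theorem ra13 : RA G {v, s} (insert s P) := by
  have := h.symm.ra12
  rwa [Set.pair_comm] at this

theorem tri (hP : P.Nonempty) (hU : ∀ u ∈ W, ∃ w ∈ W, w ≠ u ∧ ¬ G.Adj u w) {d : V} (hd : d ∈ D)
    (hdP : ∀ p ∈ P, G.Adj d p) : Cyc G W := by
  left
  obtain ⟨w, hw, hwd, hwa⟩ := hU d (h.DW d hd)
  refine ⟨{v, s}, insert s P, {s, d}, h.md1, h.md3 hP, ?_, h.ra13, ?_, ?_⟩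
  · apply MD_pair h.sW (h.DW d hd)
    · intro w hw
      rcases h.cov w hw with h1 | h1 | h1 | h1 | h1
      · subst h1; exact Or.inr (Or.inr (Or.inr (h.vD d hd)))
      · exact Or.inl h1
      · exact Or.inr (Or.inr (Or.inr (hdP w h1).symm))
      · exact Or.inr (Or.inr (Or.inl (h.sL w h1).symm))
      · exact Or.inr (Or.inr (Or.inl (h.sD w h1).symm))
    · exact ⟨w, hw, hwd, fun a => hwa a.symm⟩
    · exact ⟨v, h.vW, h.vs, h.nvs⟩
  · left
    refine ⟨d, by simp, ?_, ?_, ?_⟩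
    · rintro (hx | hx)
      · exact G.irrefl (hx ▸ h.sD d hd)
      · exact h.PD d hx hd
    · rintro x (hx | hx) hn
      · exact absurd (Or.inl hx) hn
      · exact hx
    · rintro x (hx | hx) hn
      · exact absurd (Or.inl hx) hn
      · exact hdP x hx
  · right
    refine ⟨d, by simp, ?_, ?_, ?_⟩
    · rintro (hx | hx)
      · exact h.vnD (hx ▸ hd)
      · exact G.irrefl (hx ▸ h.sD d hd)
    · rintro x (hx | hx) hn
      · exact absurd (Or.inr hx) hn
      · exact hx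
    · rintro x (hx | hx) hn
      · exact hx ▸ (h.vD d hd).symm
      · exact absurd (Or.inl hx) hn

/-- property (Q1) -/
theorem q1 (H : ∀ u ∈ W, (∃ x ∈ Rm G W u, ∃ y ∈ Rm G W u, G.Adj x y) →
      ∃ c ∈ Rm G W u, (∀ w ∈ Rm G W u, w ≠ c → G.Adj c w) ∧
        ∀ x ∈ Rm G W u, ∀ y ∈ Rm G W u, G.Adj x y → x = c ∨ y = c)
    {p p' z : V} (hp : p ∈ P) (hp' : p' ∈ P) (hpp : p ≠ p') (hz : z ∈ L ∨ z ∈ D)
    (hpz : ¬ G.Adj p z) :
    (∀ z', (z' ∈ L ∨ z' ∈ D) → ¬ G.Adj p z' → z' = z) ∧ ∀ q ∈ P, q ≠ p → G.Adj z q := by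
  have hzn : ∀ z, (z ∈ L ∨ z ∈ D) → ¬ G.Adj p z → z ∈ Rm G W p := by
    rintro z (hz | hz) hn
    · exact ⟨h.LW z hz, fun e => h.PL p hp (e ▸ hz), hn⟩
    · exact ⟨h.DW z hz, fun e => h.PD p hp (e ▸ hz), hn⟩
  have hsz : ∀ z, (z ∈ L ∨ z ∈ D) → G.Adj s z := by
    rintro z (hz | hz)
    · exact h.sL z hz
    · exact h.sD z hz
  have hs : s ∈ Rm G W p := ⟨h.sW, fun e => h.nvs (e ▸ h.vP p hp), fun a => h.sP p hp a.symm⟩
  have hq : ∀ q ∈ P, q ≠ p → q ∈ Rm G W p := fun q hq hne => ⟨h.PW q hq, hne, h.PP p hp q hq⟩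
  obtain ⟨c, hc, h1, h2⟩ := H p (h.PW p hp) ⟨s, hs, z, hzn z hz hpz, hsz z hz⟩
  have hcs : c ≠ s := by
    rintro rfl
    exact h.sP p' hp' (h1 p' (hq p' hp' hpp.symm) (fun e => h.nvs (e ▸ h.vP p' hp')))
  have hcz : ∀ z, (z ∈ L ∨ z ∈ D) → ¬ G.Adj p z → z = c := by
    intro z hz hn
    rcases h2 s hs z (hzn z hz hn) (hsz z hz) with h3 | h3
    · exact absurd h3.symm hcs
    · exact h3
  have hzc := hcz z hz hpz
  subst hzc
  refine ⟨hcz, ?_⟩
  intro q hqP hne
  apply h1 q (hq q hqP hne)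
  rintro rfl
  rcases hz with hz | hz
  · exact h.PL _ hqP hz
  · exact h.PD _ hqP hz

end Sym

theorem RA.symm {A B : Set V} (h : RA G A B) : RA G B A := Or.symm h

/-- Core 1 : both sides have at least two elements -/
theorem core1 {v s : V} {P L D : Set V} (h : Sym G W v s P L D)
    (H : ∀ u ∈ W, (∃ x ∈ Rm G W u, ∃ y ∈ Rm G W u, G.Adj x y) →
      ∃ c ∈ Rm G W u, (∀ w ∈ Rm G W u, w ≠ c → G.Adj c w) ∧
        ∀ x ∈ Rm G W u, ∀ y ∈ Rm G W u, G.Adj x y → x = c ∨ y = c)
    {p₁ p₂ l₁ l₂ : V} (hp1 : p₁ ∈ P) (hp2 : p₂ ∈ P) (hpp : p₁ ≠ p₂)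
    (hl1 : l₁ ∈ L) (hl2 : l₂ ∈ L) (hll : l₁ ≠ l₂)
    (hdP : ∀ d ∈ D, ∃ p ∈ P, ¬ G.Adj d p) (hdL : ∀ d ∈ D, ∃ l ∈ L, ¬ G.Adj d l) : Cyc G W := by
  have qP : ∀ p ∈ P, ∀ z, (z ∈ L ∨ z ∈ D) → ¬ G.Adj p z →
      (∀ z', (z' ∈ L ∨ z' ∈ D) → ¬ G.Adj p z' → z' = z) ∧ ∀ q ∈ P, q ≠ p → G.Adj z q := by
    intro p hp z hz hpz
    by_cases e : p = p₁
    · exact h.q1 H hp hp2 (e ▸ hpp) hz hpz
    · exact h.q1 H hp hp1 e hz hpz
  have qL : ∀ l ∈ L, ∀ z, (z ∈ P ∨ z ∈ D) → ¬ G.Adj l z →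
      (∀ z', (z' ∈ P ∨ z' ∈ D) → ¬ G.Adj l z' → z' = z) ∧ ∀ q ∈ L, q ≠ l → G.Adj z q := by
    intro p hp z hz hpz
    by_cases e : p = l₁
    · exact h.symm.q1 H hp hl2 (e ▸ hll) hz hpz
    · exact h.symm.q1 H hp hl1 e hz hpz
  have hPne : P.Nonempty := ⟨_, hp1⟩
  have hLne : L.Nonempty := ⟨_, hl1⟩
  by_cases hD : D.Nonempty
  · obtain ⟨d, hd⟩ := hD
    obtain ⟨p, hp, hdp⟩ := hdP d hd
    obtain ⟨l, hl, hdl⟩ := hdL d hd
    obtain ⟨a1, a2⟩ := qP p hp d (Or.inr hd) (fun a => hdp a.symm)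
    obtain ⟨b1, b2⟩ := qL l hl d (Or.inr hd) (fun a => hdl a.symm)
    have hdpn : d ≠ p := fun e => h.PD p hp (e ▸ hd)
    have hdln : d ≠ l := fun e => h.symm.PD l hl (e ▸ hd)
    have hpl : G.Adj p l := by
      by_contra hn
      exact hdln (a1 l (Or.inl hl) hn).symm
    have hpD : ∀ x ∈ D, x ≠ d → G.Adj p x := by
      intro x hx hne
      by_contra hn
      exact hne (a1 x (Or.inr hx) hn)
    have hpL : ∀ x ∈ L, G.Adj p x := by
      intro x hx
      by_contra hn
      have := a1 x (Or.inl hx) hn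
      exact h.symm.PD x hx (this ▸ hd)
    have hlD : ∀ x ∈ D, x ≠ d → G.Adj l x := by
      intro x hx hne
      by_contra hn
      exact hne (b1 x (Or.inr hx) hn)
    have hlP : ∀ x ∈ P, G.Adj l x := by
      intro x hx
      by_contra hn
      have := b1 x (Or.inl hx) hn
      exact h.PD x hx (this ▸ hd)
    have md4 : MD G W {d, p} := by
      apply MD_indep
      · rintro x (rfl | rfl)
        · exact h.DW _ hd
        · exact h.PW _ hp
      · rintro x (rfl | rfl) y (rfl | rfl)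
        · exact G.irrefl
        · exact hdp
        · exact fun ha => hdp ha.symm
        · exact G.irrefl
      · intro w hw hn
        rcases h.cov w hw with h1 | h1 | h1 | h1 | h1
        · exact ⟨d, Or.inl rfl, h1 ▸ h.vD d hd⟩
        · exact ⟨d, Or.inl rfl, h1 ▸ h.sD d hd⟩
        · exact ⟨d, Or.inl rfl, (a2 w h1 (fun e => hn (Or.inr e))).symm⟩
        · exact ⟨p, Or.inr rfl, (hpL w h1).symm⟩
        · exact ⟨p, Or.inr rfl, (hpD w h1 (fun e => hn (Or.inl e))).symm⟩
    have md5 : MD G W {d, l} := by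
      apply MD_indep
      · rintro x (rfl | rfl)
        · exact h.DW _ hd
        · exact h.LW _ hl
      · rintro x (rfl | rfl) y (rfl | rfl)
        · exact G.irrefl
        · exact hdl
        · exact fun ha => hdl ha.symm
        · exact G.irrefl
      · intro w hw hn
        rcases h.cov w hw with h1 | h1 | h1 | h1 | h1
        · exact ⟨d, Or.inl rfl, h1 ▸ h.vD d hd⟩
        · exact ⟨d, Or.inl rfl, h1 ▸ h.sD d hd⟩
        · exact ⟨l, Or.inr rfl, (hlP w h1).symm⟩
        · exact ⟨d, Or.inl rfl, (b2 w h1 (fun e => hn (Or.inr e))).symm⟩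
        · exact ⟨l, Or.inr rfl, (hlD w h1 (fun e => hn (Or.inl e))).symm⟩
    have r1 : RA G (insert s P) {d, p} := by
      left
      refine ⟨d, by simp, ?_, ?_, ?_⟩
      · rintro (hx | hx)
        · exact h.symm.vnD (hx ▸ hd)
        · exact h.PD d hx hd
      · rintro x (hx | hx) hn
        · exact hx
        · exact absurd (Or.inr (hx ▸ hp)) hn
      · rintro x (hx | hx) hn
        · exact hx ▸ (h.sD d hd).symm
        · exact a2 x hx (fun e => hn (Or.inr e))
    have r2 : RA G (insert v L) {d, l} := by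
      left
      refine ⟨d, by simp, ?_, ?_, ?_⟩
      · rintro (hx | hx)
        · exact h.vnD (hx ▸ hd)
        · exact h.symm.PD d hx hd
      · rintro x (hx | hx) hn
        · exact hx
        · exact absurd (Or.inr (hx ▸ hl)) hn
      · rintro x (hx | hx) hn
        · exact hx ▸ (h.vD d hd).symm
        · exact b2 x hx (fun e => hn (Or.inr e))
    have r3 : RA G {d, p} {d, l} := by
      left
      refine ⟨l, by simp, ?_, ?_, ?_⟩
      · rintro (hx | hx)
        · exact hdln hx.symm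
        · exact G.irrefl (hx ▸ hpl)
      · rintro x (hx | hx) hn
        · exact absurd (Or.inl hx) hn
        · exact hx
      · rintro x (hx | hx) hn
        · exact absurd (Or.inl hx) hn
        · exact hx ▸ hpl.symm
    have dv : d ≠ v := fun e => h.vnD (e ▸ hd)
    have ds : d ≠ s := fun e => h.symm.vnD (e ▸ hd)
    have n1 : ({v, s} : Set V) ≠ {d, p} := fun e => by
      have : d ∈ ({v, s} : Set V) := e ▸ (Or.inl rfl : d ∈ ({d, p} : Set V))
      rcases this with h1 | h1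
      · exact dv h1
      · exact ds h1
    have n2 : ({v, s} : Set V) ≠ {d, l} := fun e => by
      have : d ∈ ({v, s} : Set V) := e ▸ (Or.inl rfl : d ∈ ({d, l} : Set V))
      rcases this with h1 | h1
      · exact dv h1
      · exact ds h1
    have n3 : insert s P ≠ {d, l} := fun e => by
      have : d ∈ insert s P := e ▸ (Or.inl rfl : d ∈ ({d, l} : Set V))
      rcases this with h1 | h1
      · exact ds h1
      · exact h.PD d h1 hd
    have n4 : insert s P ≠ insert v L := fun e => by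
      have : p ∈ insert v L := e ▸ (Or.inr hp : p ∈ insert s P)
      rcases this with h1 | h1
      · exact h.vnP (h1 ▸ hp)
      · exact h.PL p hp h1
    have n5 : ({d, p} : Set V) ≠ insert v L := fun e => by
      have : d ∈ insert v L := e ▸ (Or.inl rfl : d ∈ ({d, p} : Set V))
      rcases this with h1 | h1
      · exact dv h1
      · exact h.symm.PD d h1 hd
    right; right
    exact ⟨{v, s}, insert s P, {d, p}, {d, l}, insert v L, h.md1, h.md3 hPne, md4, md5,
      h.md2 hLne, h.ra13, r1, r3, r2.symm, h.ra12.symm, n1, n2, n3, n4, n5⟩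
  · have hDn : ∀ x, x ∉ D := fun x hx => hD ⟨x, hx⟩
    -- choose p, l, non-adjacent if possible
    have hex : ∃ p ∈ P, ∃ l ∈ L, (∀ z ∈ L, z ≠ l → G.Adj p z) ∧ (∀ q ∈ P, q ≠ p → G.Adj l q) ∧
        MD G W {p, l} := by
      by_cases hn : ∃ p ∈ P, ∃ l ∈ L, ¬ G.Adj p l
      · obtain ⟨p, hp, l, hl, hpl⟩ := hn
        obtain ⟨a1, a2⟩ := qP p hp l (Or.inl hl) hpl
        have hz : ∀ z ∈ L, z ≠ l → G.Adj p z := by
          intro z hz hne
          by_contra hn
          exact hne (a1 z (Or.inl hz) hn)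
        refine ⟨p, hp, l, hl, hz, a2, ?_⟩
        apply MD_indep
        · rintro x (rfl | rfl)
          · exact h.PW _ hp
          · exact h.LW _ hl
        · rintro x (rfl | rfl) y (rfl | rfl)
          · exact G.irrefl
          · exact hpl
          · exact fun ha => hpl ha.symm
          · exact G.irrefl
        · intro w hw hn
          rcases h.cov w hw with h1 | h1 | h1 | h1 | h1
          · exact ⟨p, Or.inl rfl, h1 ▸ h.vP p hp⟩
          · exact ⟨l, Or.inr rfl, h1 ▸ h.sL l hl⟩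
          · exact ⟨l, Or.inr rfl, (a2 w h1 (fun e => hn (Or.inl e))).symm⟩
          · exact ⟨p, Or.inl rfl, (hz w h1 (fun e => hn (Or.inr e))).symm⟩
          · exact absurd h1 (hDn w)
      · push Not at hn
        refine ⟨p₁, hp1, l₁, hl1, fun z hz _ => hn p₁ hp1 z hz, fun q hq _ => (hn q hq l₁ hl1).symm, ?_⟩
        apply MD_pair (h.PW _ hp1) (h.LW _ hl1)
        · intro w hw
          rcases h.cov w hw with h1 | h1 | h1 | h1 | h1
          · exact Or.inr (Or.inr (Or.inl (h1 ▸ h.vP _ hp1)))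
          · exact Or.inr (Or.inr (Or.inr (h1 ▸ h.sL _ hl1)))
          · exact Or.inr (Or.inr (Or.inr (hn w h1 _ hl1)))
          · exact Or.inr (Or.inr (Or.inl (hn _ hp1 w h1).symm))
          · exact absurd h1 (hDn w)
        · exact ⟨v, h.vW, fun e => h.vnL (e ▸ hl1), h.vL _ hl1⟩
        · exact ⟨s, h.sW, fun e => h.symm.vnL (e ▸ hp1), h.sP _ hp1⟩
    obtain ⟨p, hp, l, hl, hz, hq, hM⟩ := hex
    have r1 : RA G (insert v L) {p, l} := by
      left
      refine ⟨p, by simp, ?_, ?_, ?_⟩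
      · rintro (hx | hx)
        · exact h.vnP (hx ▸ hp)
        · exact h.PL p hp hx
      · rintro x (hx | hx) hn
        · exact hx
        · exact absurd (Or.inr (hx ▸ hl)) hn
      · rintro x (hx | hx) hn
        · exact hx ▸ (h.vP p hp).symm
        · exact hz x hx (fun e => hn (Or.inr e))
    have r2 : RA G (insert s P) {p, l} := by
      left
      refine ⟨l, by simp, ?_, ?_, ?_⟩
      · rintro (hx | hx)
        · exact h.symm.vnP (hx ▸ hl)
        · exact h.PL l hx hl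
      · rintro x (hx | hx) hn
        · exact absurd (Or.inr (hx ▸ hp)) hn
        · exact hx
      · rintro x (hx | hx) hn
        · exact hx ▸ (h.sL l hl).symm
        · exact hq x hx (fun e => hn (Or.inl e))
    right; left
    refine ⟨{v, s}, insert v L, {p, l}, insert s P, h.md1, h.md2 hLne, hM, h.md3 hPne, h.ra12,
      r1, r2.symm, h.ra13.symm, ?_, ?_⟩
    · intro e
      have : v ∈ ({p, l} : Set V) := e ▸ (Or.inl rfl : v ∈ ({v, s} : Set V))
      rcases this with h1 | h1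
      · exact h.vnP (h1 ▸ hp)
      · exact h.vnL (h1 ▸ hl)
    · intro e
      have : v ∈ insert s P := e ▸ (Or.inl rfl : v ∈ insert v L)
      rcases this with h1 | h1
      · exact h.vs h1
      · exact h.vnP h1

/-- Core 2 : `P` is a single vertex -/
theorem core2 {v s p : V} {L D : Set V} (h : Sym G W v s {p} L D)
    (H : ∀ u ∈ W, (∃ x ∈ Rm G W u, ∃ y ∈ Rm G W u, G.Adj x y) →
      ∃ c ∈ Rm G W u, (∀ w ∈ Rm G W u, w ≠ c → G.Adj c w) ∧
        ∀ x ∈ Rm G W u, ∀ y ∈ Rm G W u, G.Adj x y → x = c ∨ y = c)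
    (hD : D.Nonempty) (hL : L.Nonempty)
    (hdP : ∀ d ∈ D, ¬ G.Adj d p) (hdL : ∀ d ∈ D, ∃ l ∈ L, ¬ G.Adj d l) : Cyc G W := by
  have hp : p ∈ ({p} : Set V) := rfl
  have hvp : G.Adj v p := h.vP p hp
  have hsp : ¬ G.Adj s p := h.sP p hp
  have hpW : p ∈ W := h.PW p hp
  have hpL : p ∉ L := h.PL p hp
  have hpD : p ∉ D := h.PD p hp
  have hps : p ≠ s := fun e => h.nvs (e ▸ hvp)
  have hpv : p ≠ v := fun e => G.irrefl (e ▸ hvp)
  obtain ⟨d, hd⟩ := hD
  -- independence of D ∪ L_p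
  have ind : ∀ x, (x ∈ L ∨ x ∈ D) → ¬ G.Adj p x → ∀ y, (y ∈ L ∨ y ∈ D) → ¬ G.Adj p y →
      ¬ G.Adj x y := by
    have hzn : ∀ z, (z ∈ L ∨ z ∈ D) → ¬ G.Adj p z → z ∈ Rm G W p := by
      rintro z (hz | hz) hn
      · exact ⟨h.LW z hz, fun e => hpL (e ▸ hz), hn⟩
      · exact ⟨h.DW z hz, fun e => hpD (e ▸ hz), hn⟩
    have hsz : ∀ z, (z ∈ L ∨ z ∈ D) → G.Adj s z := by
      rintro z (hz | hz)
      · exact h.sL z hz
      · exact h.sD z hz
    have hs : s ∈ Rm G W p := ⟨h.sW, hps.symm, fun a => hsp a.symm⟩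
    intro x hx hpx y hy hpy hxy
    obtain ⟨c, hc, h1, h2⟩ := H p hpW ⟨s, hs, x, hzn x hx hpx, hsz x hx⟩
    have e1 := h2 s hs x (hzn x hx hpx) (hsz x hx)
    have e2 := h2 s hs y (hzn y hy hpy) (hsz y hy)
    have e3 := h2 x (hzn x hx hpx) y (hzn y hy hpy) hxy
    have e4 := G.ne_of_adj hxy
    have e5 := G.ne_of_adj (hsz x hx)
    have e6 := G.ne_of_adj (hsz y hy)
    grind
  have DD : ∀ x ∈ D, ∀ y ∈ D, ¬ G.Adj x y := fun x hx y hy =>
    ind x (Or.inr hx) (fun a => hdP x hx a.symm) y (Or.inr hy) (fun a => hdP y hy a.symm)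
  have dv : ∀ x ∈ D, x ≠ v := fun x hx e => h.vnD (e ▸ hx)
  have ds : ∀ x ∈ D, x ≠ s := fun x hx e => h.symm.vnD (e ▸ hx)
  have lv : ∀ x ∈ L, x ≠ v := fun x hx e => h.vnL (e ▸ hx)
  have ls : ∀ x ∈ L, x ≠ s := fun x hx e => h.symm.vnP (e ▸ hx)
  have LDn : ∀ x ∈ L, x ∉ D := h.symm.PD
  have hPne : ({p} : Set V).Nonempty := ⟨p, rfl⟩
  by_cases hL2 : ∃ l₁ ∈ L, ∃ l₂ ∈ L, l₁ ≠ l₂
  · obtain ⟨l₁, hl1, l₂, hl2, hll⟩ := hL2
    have qL : ∀ l ∈ L, ∀ z, (z ∈ ({p} : Set V) ∨ z ∈ D) → ¬ G.Adj l z →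
        (∀ z', (z' ∈ ({p} : Set V) ∨ z' ∈ D) → ¬ G.Adj l z' → z' = z) ∧
          ∀ q ∈ L, q ≠ l → G.Adj z q := by
      intro p hp z hz hpz
      by_cases e : p = l₁
      · exact h.symm.q1 H hp hl2 (e ▸ hll) hz hpz
      · exact h.symm.q1 H hp hl1 e hz hpz
    have hpL' : ∀ l ∈ L, G.Adj p l := by
      intro l hl
      by_contra hn
      obtain ⟨a1, a2⟩ := qL l hl p (Or.inl rfl) (fun a => hn a.symm)
      have h1 : ¬ G.Adj d l := ind d (Or.inr hd) (fun a => hdP d hd a.symm) l (Or.inl hl) hn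
      have := a1 d (Or.inr hd) (fun a => h1 a.symm)
      exact hpD (this ▸ hd)
    obtain ⟨l, hl, hdl⟩ := hdL d hd
    obtain ⟨b1, b2⟩ := qL l hl d (Or.inr hd) (fun a => hdl a.symm)
    have hlD : ∀ x ∈ D, x ≠ d → G.Adj l x := by
      intro x hx hne
      by_contra hn
      exact hne (b1 x (Or.inr hx) hn)
    have md4 : MD G W (insert p D) := by
      apply MD_indep
      · rintro x (rfl | hx)
        · exact hpW
        · exact h.DW x hx
      · rintro x (rfl | hx) y (rfl | hy)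
        · exact G.irrefl
        · exact fun ha => hdP y hy ha.symm
        · exact hdP x hx
        · exact DD x hx y hy
      · intro w hw hn
        rcases h.cov w hw with h1 | h1 | h1 | h1 | h1
        · exact ⟨p, Or.inl rfl, h1 ▸ hvp⟩
        · exact ⟨d, Or.inr hd, h1 ▸ h.sD d hd⟩
        · exact absurd (Or.inl h1) hn
        · exact ⟨p, Or.inl rfl, (hpL' w h1).symm⟩
        · exact absurd (Or.inr h1) hn
    have md5 : MD G W {d, l} := by
      apply MD_indep
      · rintro x (rfl | rfl)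
        · exact h.DW _ hd
        · exact h.LW _ hl
      · rintro x (rfl | rfl) y (rfl | rfl)
        · exact G.irrefl
        · exact hdl
        · exact fun ha => hdl ha.symm
        · exact G.irrefl
      · intro w hw hn
        rcases h.cov w hw with h1 | h1 | h1 | h1 | h1
        · exact ⟨d, Or.inl rfl, h1 ▸ h.vD d hd⟩
        · exact ⟨d, Or.inl rfl, h1 ▸ h.sD d hd⟩
        · exact ⟨l, Or.inr rfl, h1 ▸ hpL' l hl⟩
        · exact ⟨d, Or.inl rfl, (b2 w h1 (fun e => hn (Or.inr e))).symm⟩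
        · exact ⟨l, Or.inr rfl, (hlD w h1 (fun e => hn (Or.inl e))).symm⟩
    have r1 : RA G (insert s {p}) (insert p D) := by
      right
      refine ⟨s, Or.inl rfl, ?_, ?_, ?_⟩
      · rintro (hx | hx)
        · exact hps hx.symm
        · exact ds _ hx rfl
      · rintro x (hx | hx) hn
        · exact hx
        · exact absurd (Or.inl hx) hn
      · rintro x (hx | hx) hn
        · exact absurd (Or.inr hx) hn
        · exact h.sD x hx
    have r2 : RA G (insert v L) {d, l} := by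
      left
      refine ⟨d, by simp, ?_, ?_, ?_⟩
      · rintro (hx | hx)
        · exact h.vnD (hx ▸ hd)
        · exact h.symm.PD d hx hd
      · rintro x (hx | hx) hn
        · exact hx
        · exact absurd (Or.inr (hx ▸ hl)) hn
      · rintro x (hx | hx) hn
        · exact hx ▸ (h.vD d hd).symm
        · exact b2 x hx (fun e => hn (Or.inr e))
    have r3 : RA G (insert p D) {d, l} := by
      left
      refine ⟨l, by simp, ?_, ?_, ?_⟩
      · rintro (hx | hx)
        · exact hpL (hx ▸ hl)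
        · exact LDn l hl hx
      · rintro x (hx | hx) hn
        · exact absurd (Or.inr (hx ▸ hd)) hn
        · exact hx
      · rintro x (hx | hx) hn
        · exact hx ▸ (hpL' l hl).symm
        · exact hlD x hx (fun e => hn (Or.inl e))
    right; right
    refine ⟨{v, s}, insert s {p}, insert p D, {d, l}, insert v L, h.md1, h.md3 hPne, md4, md5,
      h.md2 hL, h.ra13, r1, r3, r2.symm, h.ra12.symm, ?_, ?_, ?_, ?_, ?_⟩
    · intro e
      have : p ∈ ({v, s} : Set V) := e ▸ (Or.inl rfl : p ∈ insert p D)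
      rcases this with h1 | h1
      · exact hpv h1
      · exact hps h1
    · intro e
      have : d ∈ ({v, s} : Set V) := e ▸ (Or.inl rfl : d ∈ ({d, l} : Set V))
      rcases this with h1 | h1
      · exact dv d hd h1
      · exact ds d hd h1
    · intro e
      have : d ∈ insert s ({p} : Set V) := e ▸ (Or.inl rfl : d ∈ ({d, l} : Set V))
      rcases this with h1 | h1
      · exact ds d hd h1
      · exact hpD (h1 ▸ hd)
    · intro e
      have : p ∈ insert v L := e ▸ (Or.inr rfl : p ∈ insert s ({p} : Set V))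
      rcases this with h1 | h1
      · exact hpv h1
      · exact hpL h1
    · intro e
      have : p ∈ insert v L := e ▸ (Or.inl rfl : p ∈ insert p D)
      rcases this with h1 | h1
      · exact hpv h1
      · exact hpL h1
  · push Not at hL2
    obtain ⟨l, hl⟩ := hL
    have hLl : ∀ x ∈ L, x = l := fun x hx => hL2 x hx l hl
    have hdl : ∀ d ∈ D, ¬ G.Adj d l := by
      intro d hd
      obtain ⟨l', hl', h1⟩ := hdL d hd
      rw [← hLl l' hl']
      exact h1
    by_cases hpl : G.Adj p l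
    · have md4 : MD G W (insert p D) := by
        apply MD_indep
        · rintro x (rfl | hx)
          · exact hpW
          · exact h.DW x hx
        · rintro x (rfl | hx) y (rfl | hy)
          · exact G.irrefl
          · exact fun ha => hdP y hy ha.symm
          · exact hdP x hx
          · exact DD x hx y hy
        · intro w hw hn
          rcases h.cov w hw with h1 | h1 | h1 | h1 | h1
          · exact ⟨p, Or.inl rfl, h1 ▸ hvp⟩
          · exact ⟨d, Or.inr hd, h1 ▸ h.sD d hd⟩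
          · exact absurd (Or.inl h1) hn
          · exact ⟨p, Or.inl rfl, (hLl w h1 ▸ hpl).symm⟩
          · exact absurd (Or.inr h1) hn
      have md5 : MD G W (insert l D) := by
        apply MD_indep
        · rintro x (rfl | hx)
          · exact h.LW _ hl
          · exact h.DW x hx
        · rintro x (rfl | hx) y (rfl | hy)
          · exact G.irrefl
          · exact fun ha => hdl y hy ha.symm
          · exact hdl x hx
          · exact DD x hx y hy
        · intro w hw hn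
          rcases h.cov w hw with h1 | h1 | h1 | h1 | h1
          · exact ⟨d, Or.inr hd, h1 ▸ h.vD d hd⟩
          · exact ⟨d, Or.inr hd, h1 ▸ h.sD d hd⟩
          · exact ⟨l, Or.inl rfl, h1 ▸ hpl⟩
          · exact absurd (Or.inl (hLl w h1)) hn
          · exact absurd (Or.inr h1) hn
      have r1 : RA G (insert s {p}) (insert p D) := by
        right
        refine ⟨s, Or.inl rfl, ?_, ?_, ?_⟩
        · rintro (hx | hx)
          · exact hps hx.symm
          · exact ds _ hx rfl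
        · rintro x (hx | hx) hn
          · exact hx
          · exact absurd (Or.inl hx) hn
        · rintro x (hx | hx) hn
          · exact absurd (Or.inr hx) hn
          · exact h.sD x hx
      have r2 : RA G (insert v L) (insert l D) := by
        right
        refine ⟨v, Or.inl rfl, ?_, ?_, ?_⟩
        · rintro (hx | hx)
          · exact lv l hl hx.symm
          · exact dv _ hx rfl
        · rintro x (hx | hx) hn
          · exact hx
          · exact absurd (Or.inl (hLl x hx)) hn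
        · rintro x (hx | hx) hn
          · exact absurd (Or.inr (hx ▸ hl)) hn
          · exact h.vD x hx
      have r3 : RA G (insert p D) (insert l D) := by
        left
        refine ⟨l, Or.inl rfl, ?_, ?_, ?_⟩
        · rintro (hx | hx)
          · exact hpL (hx ▸ hl)
          · exact LDn l hl hx
        · rintro x (hx | hx) hn
          · exact hx
          · exact absurd (Or.inr hx) hn
        · rintro x (hx | hx) hn
          · exact hx ▸ hpl.symm
          · exact absurd (Or.inr hx) hn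
      right; right
      refine ⟨{v, s}, insert s {p}, insert p D, insert l D, insert v L, h.md1, h.md3 hPne, md4,
        md5, h.md2 ⟨l, hl⟩, h.ra13, r1, r3, r2.symm, h.ra12.symm, ?_, ?_, ?_, ?_, ?_⟩
      · intro e
        have : p ∈ ({v, s} : Set V) := e ▸ (Or.inl rfl : p ∈ insert p D)
        rcases this with h1 | h1
        · exact hpv h1
        · exact hps h1
      · intro e
        have : d ∈ ({v, s} : Set V) := e ▸ (Or.inr hd : d ∈ insert l D)
        rcases this with h1 | h1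
        · exact dv d hd h1
        · exact ds d hd h1
      · intro e
        have : d ∈ insert s ({p} : Set V) := e ▸ (Or.inr hd : d ∈ insert l D)
        rcases this with h1 | h1
        · exact ds d hd h1
        · exact hpD (h1 ▸ hd)
      · intro e
        have : p ∈ insert v L := e ▸ (Or.inr rfl : p ∈ insert s ({p} : Set V))
        rcases this with h1 | h1
        · exact hpv h1
        · exact hpL h1
      · intro e
        have : p ∈ insert v L := e ▸ (Or.inl rfl : p ∈ insert p D)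
        rcases this with h1 | h1
        · exact hpv h1
        · exact hpL h1
    · -- M = {p, l} ∪ D
      have md4 : MD G W (insert p (insert l D)) := by
        apply MD_indep
        · rintro x (rfl | rfl | hx)
          · exact hpW
          · exact h.LW _ hl
          · exact h.DW x hx
        · rintro x (rfl | rfl | hx) y (rfl | rfl | hy)
          · exact G.irrefl
          · exact hpl
          · exact fun ha => hdP y hy ha.symm
          · exact fun ha => hpl ha.symm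
          · exact G.irrefl
          · exact fun ha => hdl y hy ha.symm
          · exact hdP x hx
          · exact hdl x hx
          · exact DD x hx y hy
        · intro w hw hn
          rcases h.cov w hw with h1 | h1 | h1 | h1 | h1
          · exact ⟨p, Or.inl rfl, h1 ▸ hvp⟩
          · exact ⟨l, Or.inr (Or.inl rfl), h1 ▸ h.sL l hl⟩
          · exact absurd (Or.inl h1) hn
          · exact absurd (Or.inr (Or.inl (hLl w h1))) hn
          · exact absurd (Or.inr (Or.inr h1)) hn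
      have r1 : RA G (insert s {p}) (insert p (insert l D)) := by
        right
        refine ⟨s, Or.inl rfl, ?_, ?_, ?_⟩
        · rintro (hx | hx | hx)
          · exact hps hx.symm
          · exact ls l hl hx.symm
          · exact ds _ hx rfl
        · rintro x (hx | hx) hn
          · exact hx
          · exact absurd (Or.inl hx) hn
        · rintro x (hx | hx | hx) hn
          · exact absurd (Or.inr hx) hn
          · exact hx ▸ h.sL l hl
          · exact h.sD x hx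
      have r2 : RA G (insert v L) (insert p (insert l D)) := by
        right
        refine ⟨v, Or.inl rfl, ?_, ?_, ?_⟩
        · rintro (hx | hx | hx)
          · exact hpv hx.symm
          · exact lv l hl hx.symm
          · exact dv _ hx rfl
        · rintro x (hx | hx) hn
          · exact hx
          · exact absurd (Or.inr (Or.inl (hLl x hx))) hn
        · rintro x (hx | hx | hx) hn
          · exact hx ▸ hvp
          · exact absurd (Or.inr (hx ▸ hl)) hn
          · exact h.vD x hx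
      right; left
      refine ⟨{v, s}, insert s {p}, insert p (insert l D), insert v L, h.md1, h.md3 hPne, md4,
        h.md2 ⟨l, hl⟩, h.ra13, r1, r2.symm, h.ra12.symm, ?_, ?_⟩
      · intro e
        have : p ∈ ({v, s} : Set V) := e ▸ (Or.inl rfl : p ∈ insert p (insert l D))
        rcases this with h1 | h1
        · exact hpv h1
        · exact hps h1
      · intro e
        have : p ∈ insert v L := e ▸ (Or.inr rfl : p ∈ insert s ({p} : Set V))
        rcases this with h1 | h1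
        · exact hpv h1
        · exact hpL h1

/-- case `P = ∅` -/
theorem caseP0 {v s : V} {L D : Set V} (h : Sym G W v s ∅ L D)
    (hU : ∀ u ∈ W, ∃ w ∈ W, w ≠ u ∧ ¬ G.Adj u w)
    {b b' : V} (hb : b ∈ D) (hb' : b' ∈ D) (hbb : b ≠ b') : Cyc G W := by
  have mdb : ∀ b ∈ D, MD G W {s, b} := by
    intro b hb
    obtain ⟨w, hw, hwb, hwa⟩ := hU b (h.DW b hb)
    apply MD_pair h.sW (h.DW b hb)
    · intro w hw
      rcases h.cov w hw with h1 | h1 | h1 | h1 | h1
      · exact Or.inr (Or.inr (Or.inr (h1 ▸ h.vD b hb)))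
      · exact Or.inl h1
      · exact absurd h1 (Set.notMem_empty w)
      · exact Or.inr (Or.inr (Or.inl (h.sL w h1).symm))
      · exact Or.inr (Or.inr (Or.inl (h.sD w h1).symm))
    · exact ⟨w, hw, hwb, fun a => hwa a.symm⟩
    · exact ⟨v, h.vW, h.vs, h.nvs⟩
  have ds : ∀ x ∈ D, x ≠ s := fun x hx e => h.symm.vnD (e ▸ hx)
  have dv : ∀ x ∈ D, x ≠ v := fun x hx e => h.vnD (e ▸ hx)
  have r1 : ∀ b ∈ D, RA G {v, s} {s, b} := by
    intro b hb
    left
    refine ⟨b, by simp, ?_, ?_, ?_⟩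
    · rintro (hx | hx)
      · exact dv b hb hx
      · exact ds b hb hx
    · rintro x (hx | hx) hn
      · exact absurd (Or.inr hx) hn
      · exact hx
    · rintro x (hx | hx) hn
      · exact hx ▸ (h.vD b hb).symm
      · exact absurd (Or.inl hx) hn
  by_cases hE : ∃ x ∈ D, ∃ y ∈ D, G.Adj x y
  · obtain ⟨x, hx, y, hy, hxy⟩ := hE
    left
    refine ⟨{v, s}, {s, x}, {s, y}, h.md1, mdb x hx, mdb y hy, r1 x hx, ?_, (r1 y hy).symm⟩
    left
    refine ⟨y, by simp, ?_, ?_, ?_⟩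
    · rintro (h1 | h1)
      · exact ds y hy h1
      · exact G.irrefl (h1 ▸ hxy)
    · rintro z (h1 | h1) hn
      · exact absurd (Or.inl h1) hn
      · exact h1
    · rintro z (h1 | h1) hn
      · exact absurd (Or.inl h1) hn
      · exact h1 ▸ hxy.symm
  · push Not at hE
    set M : Set V := D ∪ {l | l ∈ L ∧ ∀ d ∈ D, ¬ G.Adj d l} with hM
    have mdM : MD G W M := by
      apply MD_indep
      · rintro x (hx | hx)
        · exact h.DW x hx
        · exact h.LW x hx.1
      · rintro x (hx | hx) y (hy | hy)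
        · exact hE x hx y hy
        · exact hy.2 x hx
        · exact fun ha => hx.2 y hy ha.symm
        · exact h.LL x hx.1 y hy.1
      · intro w hw hn
        rcases h.cov w hw with h1 | h1 | h1 | h1 | h1
        · exact ⟨b, Or.inl hb, h1 ▸ h.vD b hb⟩
        · exact ⟨b, Or.inl hb, h1 ▸ h.sD b hb⟩
        · exact absurd h1 (Set.notMem_empty w)
        · by_contra hc
          push Not at hc
          exact hn (Or.inr ⟨h1, fun d hd ha => hc d (Or.inl hd) ha.symm⟩)
        · exact absurd (Or.inl h1) hn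
    have r2 : ∀ b ∈ D, RA G {s, b} M := by
      intro b hb
      right
      refine ⟨s, Or.inl rfl, ?_, ?_, ?_⟩
      · rintro (hx | hx)
        · exact ds _ hx rfl
        · exact G.irrefl (h.sL s hx.1)
      · rintro x (hx | hx) hn
        · exact hx
        · exact absurd (Or.inl (hx ▸ hb)) hn
      · rintro x (hx | hx) hn
        · exact h.sD x hx
        · exact h.sL x hx.1
    right; left
    refine ⟨{v, s}, {s, b}, M, {s, b'}, h.md1, mdb b hb, mdM, mdb b' hb', r1 b hb, r2 b hb,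
      (r2 b' hb').symm, (r1 b' hb').symm, ?_, ?_⟩
    · intro e
      have : b ∈ ({v, s} : Set V) := e ▸ (Or.inl hb : b ∈ M)
      rcases this with h1 | h1
      · exact dv b hb h1
      · exact ds b hb h1
    · intro e
      have : b ∈ ({s, b'} : Set V) := e ▸ (Or.inr rfl : b ∈ ({s, b} : Set V))
      rcases this with h1 | h1
      · exact ds b hb h1
      · exact hbb h1

/-- case B : every `W \ N[u]` is edgeless -/
theorem caseB (hR : ∀ u ∈ W, ∀ x ∈ Rm G W u, ∀ y ∈ Rm G W u, ¬ G.Adj x y)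
    (hU : ∀ u ∈ W, ∃ w ∈ W, w ≠ u ∧ ¬ G.Adj u w)
    {x y : V} (hx : x ∈ W) (hy : y ∈ W) (hxy : G.Adj x y) : Cyc G W := by
  -- non-adjacency is transitive
  have tr : ∀ a ∈ W, ∀ b ∈ W, ∀ c ∈ W, ¬ G.Adj a b → ¬ G.Adj b c → ¬ G.Adj a c := by
    intro a ha b hb c hc h1 h2 h3
    by_cases e1 : a = b
    · subst e1; exact h2 h3
    by_cases e2 : c = b
    · subst e2; exact h1 h3
    exact hR b hb a ⟨ha, e1, fun a => h1 a.symm⟩ c ⟨hc, e2, h2⟩ h3
  obtain ⟨x', hx', hxx, hxa⟩ := hU x hx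
  obtain ⟨y', hy', hyy, hya⟩ := hU y hy
  have hx'y : G.Adj x' y := by
    by_contra hn
    exact tr x hx x' hx' y hy hxa hn hxy
  have hxy' : G.Adj x y' := by
    by_contra hn
    exact tr x hx y' hy' y hy hn (fun a => hya a.symm) hxy
  have hx'y' : G.Adj x' y' := by
    by_contra hn
    exact tr x hx x' hx' y' hy' hxa hn hxy'
  let P : V → Set V := fun a => {w | w ∈ W ∧ ¬ G.Adj a w}
  have mdP : ∀ a ∈ W, MD G W (P a) := by
    intro a ha
    apply MD_indep
    · exact fun z hz => hz.1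
    · intro p hp q hq
      exact tr p hp.1 a ha q hq.1 (fun a => hp.2 a.symm) hq.2
    · intro w hw hn
      have : G.Adj a w := by
        by_contra h1
        exact hn ⟨hw, h1⟩
      exact ⟨a, ⟨ha, G.irrefl⟩, this.symm⟩
  have mdp : ∀ a ∈ W, ∀ b ∈ W, G.Adj a b → MD G W {a, b} := by
    intro a ha b hb hab
    obtain ⟨a', ha', h1, h2⟩ := hU a ha
    obtain ⟨b', hb', h3, h4⟩ := hU b hb
    apply MD_pair ha hb
    · intro w hw
      by_contra hn
      push Not at hn
      exact tr a ha w hw b hb (fun a => hn.2.2.1 a.symm) hn.2.2.2 hab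
    · exact ⟨b', hb', h3, fun a => h4 a.symm⟩
    · exact ⟨a', ha', h1, fun a => h2 a.symm⟩
  -- {a, b} ~ P c  when a ∈ P c and b ∉ P c
  have ra : ∀ a ∈ W, ∀ b ∈ W, ∀ c ∈ W, G.Adj a b → ¬ G.Adj c a → RA G (P c) {a, b} := by
    intro a ha b hb c hc hab hca
    have hcb : G.Adj c b := by
      by_contra hn
      exact tr a ha c hc b hb (fun a => hca a.symm) hn hab
    left
    refine ⟨b, by simp, ?_, ?_, ?_⟩
    · exact fun h => h.2 hcb
    · rintro z (h1 | h1) hn
      · exact absurd (h1 ▸ ⟨ha, hca⟩) hn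
      · exact h1
    · intro z hz hn
      by_contra h1
      exact tr c hc z hz.1 b hb hz.2 (fun a => h1 a.symm) hcb
  right; left
  refine ⟨P x, {x, y}, P y, {x', y'}, mdP x hx, mdp x hx y hy hxy, mdP y hy,
    mdp x' hx' y' hy' hx'y', ra x hx y hy x hx hxy G.irrefl, ?_, ?_, ?_, ?_, ?_⟩
  · have := ra y hy x hx y hy hxy.symm G.irrefl
    rw [Set.pair_comm] at this
    exact this.symm
  · have := ra y' hy' x' hx' y hy hx'y'.symm hya
    rwa [Set.pair_comm] at this
  · exact (ra x' hx' y' hy' x hx hx'y' hxa).symm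
  · intro e
    have : x ∈ P y := e ▸ (⟨hx, G.irrefl⟩ : x ∈ P x)
    exact this.2 hxy.symm
  · intro e
    have : x ∈ ({x', y'} : Set V) := e ▸ (Or.inl rfl : x ∈ ({x, y} : Set V))
    rcases this with h1 | h1
    · exact hxx h1.symm
    · exact G.irrefl (h1 ▸ hxy')

/-- removing a universal vertex keeps minimal dominating sets -/
theorem MD_univ {u : V} (hu : u ∈ W) (hU : ∀ w ∈ W, w ≠ u → G.Adj u w)
    (hne : ∃ x ∈ W, x ≠ u) {M : Set V} (h : MD G {w | w ∈ W ∧ w ≠ u} M) : MD G W M := by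
  obtain ⟨h1, h2, h3⟩ := h
  obtain ⟨x, hx, hxu⟩ := hne
  obtain ⟨m, hm, _⟩ := h2 x ⟨hx, hxu⟩
  refine ⟨fun z hz => (h1 z hz).1, ?_, ?_⟩
  · intro w hw
    by_cases e : w = u
    · subst e
      exact ⟨m, hm, Or.inr (hU m (h1 m hm).1 (h1 m hm).2)⟩
    · exact h2 w ⟨hw, e⟩
  · intro m hm
    obtain ⟨w, hw, h⟩ := h3 m hm
    exact ⟨w, hw.1, h⟩

theorem Cyc_univ {u : V} (hu : u ∈ W) (hU : ∀ w ∈ W, w ≠ u → G.Adj u w)
    (hne : ∃ x ∈ W, x ≠ u) (h : Cyc G {w | w ∈ W ∧ w ≠ u}) : Cyc G W := by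
  have key : ∀ M, MD G {w | w ∈ W ∧ w ≠ u} M → MD G W M := fun M hM => MD_univ hu hU hne hM
  rcases h with ⟨a, b, c, ha, hb, hc, h1⟩ | ⟨a, b, c, d, ha, hb, hc, hd, h1⟩ |
    ⟨a, b, c, d, e, ha, hb, hc, hd, he, h1⟩
  · exact Or.inl ⟨a, b, c, key _ ha, key _ hb, key _ hc, h1⟩
  · exact Or.inr (Or.inl ⟨a, b, c, d, key _ ha, key _ hb, key _ hc, key _ hd, h1⟩)
  · exact Or.inr (Or.inr ⟨a, b, c, d, e, key _ ha, key _ hb, key _ hc, key _ hd, key _ he, h1⟩)

/-- universal vertex, and the rest is star-like with an edge -/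
theorem caseU {u x y : V} (hu : u ∈ W) (hU : ∀ w ∈ W, w ≠ u → G.Adj u w)
    (hS : StarLike G {w | w ∈ W ∧ w ≠ u}) (hx : x ∈ W) (hxu : x ≠ u) (hy : y ∈ W) (hyu : y ≠ u)
    (hxy : G.Adj x y) : Cyc G W := by
  obtain ⟨s, hs⟩ := hS
  -- s is x or y, the other is l
  have : ∃ l, s ∈ W ∧ s ≠ u ∧ l ∈ W ∧ l ≠ u ∧ G.Adj s l := by
    rcases hs x ⟨hx, hxu⟩ y ⟨hy, hyu⟩ hxy with h | h
    · subst h; exact ⟨y, hx, hxu, hy, hyu, hxy⟩
    · subst h; exact ⟨x, hy, hyu, hx, hxu, hxy.symm⟩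
  obtain ⟨l, hsW, hsu, hlW, hlu, hsl⟩ := this
  set M₁ : Set V := {w | w ∈ W ∧ w ≠ u ∧ ¬ G.Adj s w} with hM1
  set M₂ : Set V := {w | w ∈ W ∧ w ≠ u ∧ w ≠ s} with hM2
  have md1 : MD G W M₁ := by
    apply MD_indep
    · exact fun z hz => hz.1
    · intro a ha b hb hab
      rcases hs a ⟨ha.1, ha.2.1⟩ b ⟨hb.1, hb.2.1⟩ hab with h | h
      · exact hb.2.2 (h ▸ hab)
      · exact ha.2.2 (h ▸ hab.symm)
    · intro w hw hn
      refine ⟨s, ⟨hsW, hsu, G.irrefl⟩, ?_⟩
      by_cases e : w = u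
      · exact e ▸ hU s hsW hsu
      · by_contra h1
        exact hn ⟨hw, e, fun a => h1 a.symm⟩
  have md2 : MD G W M₂ := by
    apply MD_indep
    · exact fun z hz => hz.1
    · intro a ha b hb hab
      rcases hs a ⟨ha.1, ha.2.1⟩ b ⟨hb.1, hb.2.1⟩ hab with h | h
      · exact ha.2.2 h
      · exact hb.2.2 h
    · intro w hw hn
      refine ⟨l, ⟨hlW, hlu, fun e => G.irrefl (e ▸ hsl)⟩, ?_⟩
      by_cases e : w = u
      · exact e ▸ hU l hlW hlu
      · by_cases e2 : w = s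
        · exact e2 ▸ hsl
        · exact absurd ⟨hw, e, e2⟩ hn
  have md3 : MD G W {u} := by
    apply MD_indep
    · rintro z rfl; exact hu
    · rintro a rfl b rfl; exact G.irrefl
    · intro w hw hn
      exact ⟨u, rfl, (hU w hw hn).symm⟩
  left
  refine ⟨M₁, M₂, {u}, md1, md2, md3, ?_, ?_, ?_⟩
  · right
    refine ⟨s, ⟨hsW, hsu, G.irrefl⟩, fun h => h.2.2 rfl, ?_, ?_⟩
    · intro z hz hn
      by_contra h1
      exact hn ⟨hz.1, hz.2.1, h1⟩
    · intro z hz hn
      by_contra h1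
      exact hn ⟨hz.1, hz.2.1, h1⟩
  · left
    refine ⟨u, rfl, fun h => h.2.1 rfl, fun z hz _ => hz, ?_⟩
    intro z hz _
    exact hU z hz.1 hz.2.1
  · right
    refine ⟨u, rfl, fun h => h.2.1 rfl, fun z hz _ => hz, ?_⟩
    intro z hz _
    exact hU z hz.1 hz.2.1

/-- building the configuration -/
theorem exists_conf {v x y : V} (hR : ∀ u ∈ W, StarLike G (Rm G W u)) (hv : v ∈ W)
    (hx : x ∈ Rm G W v) (hy : y ∈ Rm G W v) (hxy : G.Adj x y) :
    ∃ T L s, Conf G W T {b | b ∈ W ∧ G.Adj v b} L s ∧ v ∈ T ∧ s ∈ Rm G W v ∧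
      (∀ w ∈ Rm G W v, w ∈ T ∨ w = s ∨ w ∈ L) ∧
      (∀ a ∈ Rm G W v, ∀ b ∈ Rm G W v, G.Adj a b → a = s ∨ b = s) ∧
      L = {l | l ∈ Rm G W v ∧ G.Adj s l} := by
  obtain ⟨s, hs⟩ := hR v hv
  have : ∃ l ∈ Rm G W v, s ∈ Rm G W v ∧ G.Adj s l := by
    rcases hs x hx y hy hxy with h | h
    · subst h; exact ⟨y, hy, hx, hxy⟩
    · subst h; exact ⟨x, hx, hy, hxy.symm⟩
  obtain ⟨l, hl, hsR, hsl⟩ := this
  have hlv : l ≠ v := hl.2.1
  refine ⟨insert v {e | e ∈ Rm G W v ∧ e ≠ s ∧ ¬ G.Adj s e}, {l | l ∈ Rm G W v ∧ G.Adj s l}, s,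
    ?_, Or.inl rfl, hsR, ?_, hs, rfl⟩
  · refine ⟨?_, fun b hb => hb.1, fun l hl => hl.1.1, hsR.1, ⟨v, Or.inl rfl⟩, ⟨l, hl, hsl⟩, ?_, ?_, ?_, ?_,
      ?_, ?_, ?_, fun l hl => hl.2, ?_⟩
    · rintro z (rfl | hz)
      · exact hv
      · exact hz.1.1
    · intro w hw
      by_cases e : w = v
      · exact Or.inl (Or.inl e)
      by_cases ha : G.Adj v w
      · exact Or.inr (Or.inl ⟨hw, ha⟩)
      by_cases e2 : w = s
      · exact Or.inr (Or.inr (Or.inl e2))
      by_cases ha2 : G.Adj s w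
      · exact Or.inr (Or.inr (Or.inr ⟨⟨hw, e, ha⟩, ha2⟩))
      · exact Or.inl (Or.inr ⟨⟨hw, e, ha⟩, e2, ha2⟩)
    · rintro a (rfl | ha) b (rfl | hb)
      · exact G.irrefl
      · exact hb.1.2.2
      · exact fun h => ha.1.2.2 h.symm
      · intro hab
        rcases hs a ha.1 b hb.1 hab with h | h
        · exact ha.2.1 h
        · exact hb.2.1 h
    · -- T complete to B
      rintro a (rfl | ha) b hb
      · exact hb.2
      · by_contra hn
        have hab : a ≠ b := fun e => ha.1.2.2 (e ▸ hb.2)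
        obtain ⟨c, hc⟩ := hR a ha.1.1
        have m1 : v ∈ Rm G W a := ⟨hv, ha.1.2.1.symm, fun h => ha.1.2.2 h.symm⟩
        have m2 : b ∈ Rm G W a := ⟨hb.1, hab.symm, hn⟩
        have m3 : s ∈ Rm G W a := ⟨hsR.1, ha.2.1.symm, fun h => ha.2.2 h.symm⟩
        have hla : l ≠ a := fun e => ha.2.2 (e ▸ hsl)
        have hal : ¬ G.Adj a l := by
          intro h
          rcases hs a ha.1 l hl h with h | h
          · exact ha.2.1 h
          · exact G.irrefl (h ▸ hsl)
        have m4 : l ∈ Rm G W a := ⟨hl.1, hla, hal⟩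
        have e1 := hc v m1 b m2 hb.2
        have e2 := hc s m3 l m4 hsl
        have n1 : v ≠ s := hsR.2.1.symm
        have n2 : b ≠ s := fun e => hsR.2.2 (e ▸ hb.2)
        have n3 : b ≠ l := fun e => hl.2.2 (e ▸ hb.2)
        grind
    · rintro a (rfl | ha)
      · exact hsR.2.2
      · exact fun h => ha.2.2 h.symm
    · rintro a (rfl | ha) l' hl'
      · exact hl'.1.2.2
      · intro h
        rcases hs a ha.1 l' hl'.1 h with h | h
        · exact ha.2.1 h
        · exact G.irrefl (h ▸ hl'.2)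
    · rintro (h | h)
      · exact hsR.2.1 h
      · exact h.2.1 rfl
    · rintro l' hl' (h | h)
      · exact hl'.1.2.1 h
      · exact h.2.2 hl'.2
    · intro a ha b hb hab
      rcases hs a ha.1 b hb.1 hab with h | h
      · exact G.irrefl (h ▸ ha.2)
      · exact G.irrefl (h ▸ hb.2)
  · intro w hw
    by_cases e2 : w = s
    · exact Or.inr (Or.inl e2)
    by_cases ha2 : G.Adj s w
    · exact Or.inr (Or.inr ⟨hw, ha2⟩)
    · exact Or.inl (Or.inr ⟨hw, e2, ha2⟩)

/-- the last configuration: `T = {v}` -/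
theorem caseC3 (hR : ∀ u ∈ W, StarLike G (Rm G W u))
    (hU : ∀ u ∈ W, ∃ w ∈ W, w ≠ u ∧ ¬ G.Adj u w)
    (H : ∀ u ∈ W, (∃ x ∈ Rm G W u, ∃ y ∈ Rm G W u, G.Adj x y) →
      ∃ c ∈ Rm G W u, (∀ w ∈ Rm G W u, w ≠ c → G.Adj c w) ∧
        ∀ x ∈ Rm G W u, ∀ y ∈ Rm G W u, G.Adj x y → x = c ∨ y = c)
    (H2 : ∀ u ∈ W, (∃ x ∈ Rm G W u, ∃ y ∈ Rm G W u, G.Adj x y) → ∀ b ∈ W, G.Adj u b →
      ∃ b' ∈ W, G.Adj u b' ∧ b' ≠ b ∧ ¬ G.Adj b b')
    (hI : ∀ u ∈ W, ∃ w ∈ W, G.Adj u w)
    {v x y : V} (hv : v ∈ W) (hx : x ∈ Rm G W v) (hy : y ∈ Rm G W v) (hxy : G.Adj x y) :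
    Cyc G W := by
  obtain ⟨s, hs, h1, h2⟩ := H v hv ⟨x, hx, y, hy, hxy⟩
  set P : Set V := {p | p ∈ W ∧ G.Adj v p ∧ ¬ G.Adj s p} with hP
  set D : Set V := {d | d ∈ W ∧ G.Adj v d ∧ G.Adj s d} with hD
  set L : Set V := {l | l ∈ Rm G W v ∧ l ≠ s} with hL
  have hLne : L.Nonempty := by
    rcases h2 x hx y hy hxy with h | h
    · exact ⟨y, hy, fun e => G.irrefl (h ▸ e ▸ hxy)⟩
    · exact ⟨x, hx, fun e => G.irrefl (h ▸ e ▸ hxy)⟩
  have sL : ∀ l ∈ L, G.Adj s l := fun l hl => h1 l hl.1 hl.2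
  have PP : ∀ p ∈ P, ∀ q ∈ P, ¬ G.Adj p q := by
    intro p hp q hq hpq
    obtain ⟨c, hc⟩ := hR s hs.1
    have m1 : v ∈ Rm G W s := ⟨hv, hs.2.1.symm, fun a => hs.2.2 a.symm⟩
    have m2 : p ∈ Rm G W s := ⟨hp.1, fun e => hs.2.2 (e ▸ hp.2.1), hp.2.2⟩
    have m3 : q ∈ Rm G W s := ⟨hq.1, fun e => hs.2.2 (e ▸ hq.2.1), hq.2.2⟩
    have e1 := hc v m1 p m2 hp.2.1
    have e2 := hc v m1 q m3 hq.2.1
    have e3 := hc p m2 q m3 hpq
    have n1 := G.ne_of_adj hpq
    have n2 := G.ne_of_adj hp.2.1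
    have n3 := G.ne_of_adj hq.2.1
    grind
  have h : Sym G W v s P L D :=
    { vW := hv
      sW := hs.1
      PW := fun x hx => hx.1
      LW := fun x hx => hx.1.1
      DW := fun x hx => hx.1
      vs := hs.2.1.symm
      nvs := hs.2.2
      cov := by
        intro w hw
        by_cases e : w = v
        · exact Or.inl e
        by_cases e2 : w = s
        · exact Or.inr (Or.inl e2)
        by_cases ha : G.Adj v w
        · by_cases hb : G.Adj s w
          · exact Or.inr (Or.inr (Or.inr (Or.inr ⟨hw, ha, hb⟩)))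
          · exact Or.inr (Or.inr (Or.inl ⟨hw, ha, hb⟩))
        · exact Or.inr (Or.inr (Or.inr (Or.inl ⟨⟨hw, e, ha⟩, e2⟩)))
      vP := fun p hp => hp.2.1
      sP := fun p hp => hp.2.2
      sL := sL
      vL := fun l hl => hl.1.2.2
      vD := fun d hd => hd.2.1
      sD := fun d hd => hd.2.2
      PP := PP
      LL := by
        intro a ha b hb hab
        rcases h2 a ha.1 b hb.1 hab with h | h
        · exact ha.2 h
        · exact hb.2 h }
  have hedgev : ∃ x ∈ Rm G W v, ∃ y ∈ Rm G W v, G.Adj x y := ⟨x, hx, y, hy, hxy⟩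
  by_cases hPne : P.Nonempty
  · by_cases t1 : ∃ d ∈ D, ∀ p ∈ P, G.Adj d p
    · obtain ⟨d, hd, h3⟩ := t1
      exact h.tri hPne hU hd h3
    by_cases t2 : ∃ d ∈ D, ∀ p ∈ L, G.Adj d p
    · obtain ⟨d, hd, h3⟩ := t2
      exact h.symm.tri hLne hU hd h3
    push Not at t1 t2
    obtain ⟨p, hp⟩ := hPne
    obtain ⟨l, hl⟩ := hLne
    have hedges : ∃ x ∈ Rm G W s, ∃ y ∈ Rm G W s, G.Adj x y :=
      ⟨v, ⟨hv, h.vs, fun a => h.nvs a.symm⟩, p,
        ⟨hp.1, fun e => h.nvs (e ▸ hp.2.1), hp.2.2⟩, hp.2.1⟩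
    by_cases c1 : ∃ p' ∈ P, p' ≠ p
    · obtain ⟨p', hp', hpp⟩ := c1
      by_cases c2 : ∃ l' ∈ L, l' ≠ l
      · obtain ⟨l', hl', hll⟩ := c2
        exact core1 h H hp' hp hpp hl' hl hll t1 t2
      · push Not at c2
        have hL1 : L = {l} := by
          ext z
          exact ⟨fun hz => c2 z hz, fun hz => hz ▸ hl⟩
        have hDne : D.Nonempty := by
          obtain ⟨b, hb, hb1, hb2, hb3⟩ := H2 s hs.1 hedges l (h.LW l hl) (sL l hl)
          rcases h.symm.cov b hb with h4 | h4 | h4 | h4 | h4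
          · exact absurd hb1 (h4 ▸ G.irrefl)
          · exact absurd hb1 (h4 ▸ fun a => h.nvs a.symm)
          · exact absurd (c2 b h4) hb2
          · exact absurd hb1 h4.2.2
          · exact ⟨b, h4⟩
        have h' := h.symm
        rw [hL1] at h'
        refine core2 h' H hDne ⟨p, hp⟩ ?_ t1
        intro d hd
        obtain ⟨l', hl', h5⟩ := t2 d hd
        rw [c2 l' hl'] at h5
        exact h5
    · push Not at c1
      have hP1 : P = {p} := by
        ext z
        exact ⟨fun hz => c1 z hz, fun hz => hz ▸ hp⟩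
      have hDne : D.Nonempty := by
        obtain ⟨b, hb, hb1, hb2, hb3⟩ := H2 v hv hedgev p hp.1 hp.2.1
        rcases h.cov b hb with h4 | h4 | h4 | h4 | h4
        · exact absurd hb1 (h4 ▸ G.irrefl)
        · exact absurd hb1 (h4 ▸ h.nvs)
        · exact absurd (c1 b h4) hb2
        · exact absurd hb1 h4.1.2.2
        · exact ⟨b, h4⟩
      have h' := h
      rw [hP1] at h'
      refine core2 h' H hDne ⟨l, hl⟩ ?_ t2
      intro d hd
      obtain ⟨l', hl', h5⟩ := t1 d hd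
      rw [c1 l' hl'] at h5
      exact h5
  · have hP0 : P = ∅ := Set.not_nonempty_iff_eq_empty.1 hPne
    obtain ⟨b, hb, hvb⟩ := hI v hv
    have hbD : ∀ b ∈ W, G.Adj v b → b ∈ D := by
      intro b hb hvb
      by_cases hsb : G.Adj s b
      · exact ⟨hb, hvb, hsb⟩
      · exact absurd ⟨b, hb, hvb, hsb⟩ hPne
    obtain ⟨b', hb', hvb', hne, _⟩ := H2 v hv hedgev b hb hvb
    rw [hP0] at h
    exact caseP0 h hU (hbD b hb hvb) (hbD b' hb' hvb') hne.symm

theorem main [Finite V] [Nonempty V] (G : SimpleGraph V) :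
    ∀ (n : ℕ) (W : Set V), W.ncard ≤ n → ¬ StarLike G W → Cyc G W := by
  intro n
  induction n with
  | zero =>
    intro W hW hS
    exfalso
    apply hS
    have : W = ∅ := by
      have := Nat.le_zero.1 hW
      rwa [Set.ncard_eq_zero] at this
    subst this
    obtain ⟨c⟩ := ‹Nonempty V›
    exact ⟨c, fun x hx => absurd hx (Set.notMem_empty x)⟩
  | succ n ih =>
    intro W hW hS
    have hlt : ∀ W' : Set V, ∀ v ∈ W, v ∉ W' → W' ⊆ W → W'.ncard ≤ n := by
      intro W' v hv hv' hsub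
      have : W' ⊂ W := ⟨hsub, fun h => hv' (h hv)⟩
      have := Set.ncard_lt_ncard this
      omega
    have hedge : ∃ x ∈ W, ∃ y ∈ W, G.Adj x y := by
      by_contra hn
      push Not at hn
      obtain ⟨c⟩ := ‹Nonempty V›
      exact hS ⟨c, fun x hx y hy h => absurd h (hn x hx y hy)⟩
    -- step 1
    by_cases h1 : ∃ v ∈ W, ¬ StarLike G (Rm G W v)
    · obtain ⟨v, hv, h1⟩ := h1
      exact Cyc_lift hv (ih _ (hlt _ v hv (fun h => h.2.1 rfl) (fun x hx => hx.1)) h1)
    push Not at h1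
    -- step 2 : universal vertices
    by_cases h2 : ∃ u ∈ W, ∀ w ∈ W, w ≠ u → G.Adj u w
    · obtain ⟨u, hu, hU⟩ := h2
      have hex : ∃ x ∈ W, ∃ y ∈ W, G.Adj x y ∧ x ≠ u ∧ y ≠ u := by
        by_contra hn
        push Not at hn
        apply hS
        refine ⟨u, fun x hx y hy hxy => ?_⟩
        by_cases e : x = u
        · exact Or.inl e
        · exact Or.inr (hn x hx y hy hxy e)
      obtain ⟨x, hx, y, hy, hxy, hxu, hyu⟩ := hex
      by_cases h3 : StarLike G {w | w ∈ W ∧ w ≠ u}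
      · exact caseU hu hU h3 hx hxu hy hyu hxy
      · exact Cyc_univ hu hU ⟨x, hx, hxu⟩
          (ih _ (hlt _ u hu (fun h => h.2 rfl) (fun x hx => hx.1)) h3)
    push Not at h2
    -- step 3 : no isolated vertex
    have h3 : ∀ u ∈ W, ∃ w ∈ W, G.Adj u w := by
      intro u hu
      by_contra hn
      push Not at hn
      apply hS
      obtain ⟨c, hc⟩ := h1 u hu
      refine ⟨c, fun x hx y hy hxy => ?_⟩
      refine hc x ⟨hx, ?_, hn x hx⟩ y ⟨hy, ?_, hn y hy⟩ hxy
      · rintro rfl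
        exact hn y hy hxy
      · rintro rfl
        exact hn x hx hxy.symm
    -- step 4
    by_cases h4 : ∃ v ∈ W, ∃ x ∈ Rm G W v, ∃ y ∈ Rm G W v, G.Adj x y
    swap
    · push Not at h4
      obtain ⟨x, hx, y, hy, hxy⟩ := hedge
      exact caseB h4 h2 hx hy hxy
    -- step 5
    by_cases h5 : ∃ T B L s, Conf G W T B L s ∧ ∃ b ∈ B, ∀ b' ∈ B, b' ≠ b → G.Adj b b'
    · obtain ⟨T, B, L, s, h, b, hb, hbB⟩ := h5
      exact caseC1 h hb hbB (h2 b (h.BW b hb))
    push Not at h5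
    by_cases h6 : ∃ T B L s, Conf G W T B L s ∧ B.Nonempty ∧ ∃ t₁ ∈ T, ∃ t₂ ∈ T, t₁ ≠ t₂
    · obtain ⟨T, B, L, s, h, hne, t₁, ht1, t₂, ht2, hne'⟩ := h6
      exact caseC2 h ht1 ht2 hne' h1 hne (h5 T B L s h)
    push Not at h6
    obtain ⟨v, hv, x, hx, y, hy, hxy⟩ := h4
    refine caseC3 h1 h2 ?_ ?_ h3 hv hx hy hxy
    · rintro u hu ⟨x, hx, y, hy, hxy⟩
      obtain ⟨T, L, s, hc, huT, hsR, hcov, hst, hL⟩ := exists_conf h1 hu hx hy hxy
      obtain ⟨w, hw, huw⟩ := h3 u hu
      have hT := h6 _ _ _ _ hc ⟨w, hw, huw⟩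
      refine ⟨s, hsR, ?_, hst⟩
      intro w hwR hws
      rcases hcov w hwR with h | h | h
      · exact absurd (hT w h u huT) hwR.2.1
      · exact absurd h hws
      · exact hc.sL w h
    · rintro u hu ⟨x, hx, y, hy, hxy⟩ b hb hub
      obtain ⟨T, L, s, hc, huT, hsR, hcov, hst, hL⟩ := exists_conf h1 hu hx hy hxy
      obtain ⟨b', hb', hne, hna⟩ := h5 _ _ _ _ hc b ⟨hb, hub⟩
      exact ⟨b', hb'.1, hb'.2, hne, hna⟩

end Pool.Agent.Lib.MP_746574_co
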